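import Pool.Agent.LibDih3.Form

/-!
Functions on curves mapping to the product of two curves of genus two.
-/

open scoped Classical
open Polynomial

namespace Pool.Agent.LibDih3

open Pool.Agent.LibBH2 Pool.Agent.LibQC8 Pool.Agent.LibLP34 Pool.Agent.LibK4
open Pool.Agent.LibJac77 (Genus2 Pt KC DCf vp dv neg jP Pic mk)

section

variable {k H : Type} [Field k] [Field H] [Algebra k H]

theorem lin_ne_zero {T : H} (hT : Transcendental k T) {γ δ : k} (h : γ ≠ 0 ∨ δ ≠ 0) :
    algebraMap k H γ * T + algebraMap k H δ ≠ 0 := by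
  intro h0
  apply hT
  refine ⟨C γ * X + C δ, ?_, by simp [h0]⟩
  intro h1
  have e1 := congrArg (fun p => p.coeff 1) h1
  have e0 := congrArg (fun p => p.coeff 0) h1
  simp at e1 e0
  rcases h with h | h
  · exact h e1
  · exact h e0

theorem den_ne_zero {T : H} (hT : Transcendental k T) {α β γ δ : k} (hΔ : α * δ - β * γ ≠ 0) :
    algebraMap k H γ * T + algebraMap k H δ ≠ 0 := by
  apply lin_ne_zero hT
  by_contra h
  push Not at h
  apply hΔ
  rw [h.1, h.2]
  ring

theorem transcendental_mob {T x : H} (hT : Transcendental k T) {α β γ δ : k}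
    (hΔ : α * δ - β * γ ≠ 0)
    (hx : x * (algebraMap k H γ * T + algebraMap k H δ) = algebraMap k H α * T + algebraMap k H β) :
    Transcendental k x := by
  intro halg
  apply hT
  have h1 : algebraMap k H γ * x - algebraMap k H α ≠ 0 := by
    intro h0
    apply hΔ
    apply (map_eq_zero_iff _ (algebraMap k H).injective).1
    rw [map_sub, map_mul, map_mul]
    have h2 : algebraMap k H γ * (x * (algebraMap k H γ * T + algebraMap k H δ)) =
      algebraMap k H γ * (algebraMap k H α * T + algebraMap k H β) := by rw [hx]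
    linear_combination h2 - (algebraMap k H γ * T + algebraMap k H δ) * h0
  have h2 : T = (algebraMap k H β - algebraMap k H δ * x) /
      (algebraMap k H γ * x - algebraMap k H α) := by
    rw [eq_div_iff h1]
    linear_combination hx
  rw [h2, div_eq_mul_inv]
  exact ((isAlgebraic_algebraMap β).sub ((isAlgebraic_algebraMap δ).mul halg)).mul
    (((isAlgebraic_algebraMap γ).mul halg).sub (isAlgebraic_algebraMap α)).inv

theorem den_ne_zero' {α β γ δ ξ t : k} (hΔ : α * δ - β * γ ≠ 0)
    (hξ : ξ * (γ * t + δ) = α * t + β) : γ * t + δ ≠ 0 := by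
  intro h0
  apply hΔ
  rw [h0, mul_zero] at hξ
  have h2 : γ * (α * t + β) = 0 := by rw [← hξ, mul_zero]
  linear_combination α * h0 - h2

/-- the value of a projective function -/
theorem val_mob (v : Place k H) {T x : H} {α β γ δ ξ t : k} (hΔ : α * δ - β * γ ≠ 0)
    (hd : algebraMap k H γ * T + algebraMap k H δ ≠ 0)
    (hx : x * (algebraMap k H γ * T + algebraMap k H δ) = algebraMap k H α * T + algebraMap k H β)
    (hξ : ξ * (γ * t + δ) = α * t + β) (hT : v.Zer (T - algebraMap k H t)) :
    v.Zer (x - algebraMap k H ξ) := by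
  have hden := den_ne_zero' hΔ hξ
  have hdv := Place.val_add (Place.val_mul (Place.val_const (v := v) γ) hT)
    (Place.val_const (v := v) δ)
  have h1 := Place.val_add (Place.val_mul (Place.val_const (v := v) α) hT)
    (Place.val_const (v := v) β)
  have h2 := Place.val_div h1 hdv hden
  have h3 : (α * t + β) / (γ * t + δ) = ξ := by rw [div_eq_iff hden, hξ]
  have h4 : (algebraMap k H α * T + algebraMap k H β) /
      (algebraMap k H γ * T + algebraMap k H δ) = x := by rw [div_eq_iff hd, hx]
  rwa [h3, h4] at h2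

theorem not_reg_of_ord_lt (v : Place k H) {z : H} (h : v.ord z < 0) : ¬ v.Reg z := by
  rintro (h1 | h1)
  · rw [h1, v.ord_zero] at h; exact lt_irrefl _ h
  · omega

/-- the value of a projective function at a pole of the coordinate -/
theorem val_mob_inf (v : Place k H) {T x : H} {α β γ δ : k} (hγ : γ ≠ 0)
    (hd : algebraMap k H γ * T + algebraMap k H δ ≠ 0)
    (hx : x * (algebraMap k H γ * T + algebraMap k H δ) = algebraMap k H α * T + algebraMap k H β)
    (hT : ¬ v.Reg T) : v.Zer (x - algebraMap k H (α / γ)) := by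
  have hγ' : algebraMap k H γ ≠ 0 := by rwa [Ne, map_eq_zero_iff _ (algebraMap k H).injective]
  have h1 : ¬ v.Reg (algebraMap k H γ * T + algebraMap k H δ) := by
    intro h
    apply hT
    have h2 := (v.reg_const γ⁻¹).mul (h.sub (v.reg_const δ))
    rw [add_sub_cancel_right, map_inv₀, inv_mul_cancel_left₀ hγ'] at h2
    exact h2
  have h2 : v.ord (algebraMap k H γ * T + algebraMap k H δ) < 0 := by
    by_contra h
    exact h1 (Or.inr (by omega))
  have h3 : x - algebraMap k H (α / γ) = algebraMap k H ((β * γ - α * δ) / γ) *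
      (algebraMap k H γ * T + algebraMap k H δ)⁻¹ := by
    rw [map_div₀, map_div₀, map_sub, map_mul, map_mul]
    field_simp
    linear_combination (algebraMap k H γ) * hx
  rw [h3]
  apply Place.Zer.reg_mul (v.reg_const _)
  right
  rw [v.ord_inv]
  omega

end

variable {k : Type} [Field k] [CharZero k] [IsAlgClosed k] {f f' : k[X]} [Genus2 f] [Genus2 f']

/-- a function on a curve mapping to the product of two curves whose zeros give the pair `(P, Q)`
and whose poles give Weierstrass points -/
def Data (P : Pt f) (Q : Pt f') : Prop :=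
  ∃ (H : Type) (_ : Field H) (_ : Algebra k H) (j : KC f →ₐ[k] H) (j' : KC f' →ₐ[k] H) (φ : H)
    (p : Place k H → Pt f) (q : Place k H → Pt f'), IsFunctionField k H ∧ Transcendental k φ ∧
    (∀ v, Spec v (.inr j) (vp (p v))) ∧ (∀ v, Spec v (.inr j') (vp (q v))) ∧
    (∀ v : Place k H, 0 < v.ord φ → (p v = P ∧ q v = Q) ∨ (p v = neg P ∧ q v = neg Q)) ∧
    ∀ v : Place k H, v.ord φ < 0 → neg (p v) = p v ∨ neg (q v) = q v

theorem data_aux {H : Type} [Field H] [Algebra k H] (hH : IsFunctionField k H)
    {T x x' y y' φ : H} {α β γ δ α' β' γ' δ' : k} (hΔ : α * δ - β * γ ≠ 0)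
    (hΔ' : α' * δ' - β' * γ' ≠ 0) (hT : Transcendental k T)
    (hx : x * (algebraMap k H γ * T + algebraMap k H δ) = algebraMap k H α * T + algebraMap k H β)
    (hx' : x' * (algebraMap k H γ' * T + algebraMap k H δ') =
      algebraMap k H α' * T + algebraMap k H β')
    (hy : y ^ 2 = aeval x f) (hy' : y' ^ 2 = aeval x' f')
    {t ξ η ξ' η' : k} (h : η ^ 2 = f.eval ξ) (h' : η' ^ 2 = f'.eval ξ')
    (hξ : ξ * (γ * t + δ) = α * t + β) (hξ' : ξ' * (γ' * t + δ') = α' * t + β')
    (hη : η ≠ 0) (hφ : Transcendental k φ)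
    (hzT : ∀ v : Place k H, 0 < v.ord φ → v.Zer (T - algebraMap k H t))
    (hzy : ∀ v : Place k H, 0 < v.ord φ → v.Zer (y * y' - algebraMap k H (η * η')))
    (hpole : ∀ v : Place k H, v.ord φ < 0 → ¬ v.Reg T)
    (hinf : γ' = 0 ∨ f'.eval (α' / γ') = 0) :
    Data (.aff ξ η h : Pt f) (.aff ξ' η' h' : Pt f') := by
  have hd := den_ne_zero hT hΔ
  have hd' := den_ne_zero hT hΔ'
  have hxt := transcendental_mob hT hΔ hx
  have hxt' := transcendental_mob hT hΔ' hx'
  obtain ⟨j, hj1, hj2⟩ := exists_map f hxt hy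
  obtain ⟨j', hj1', hj2'⟩ := exists_map f' hxt' hy'
  have hp := fun v => exists_pt hH j v
  have hq := fun v => exists_pt hH j' v
  rw [hj1, hj2] at hp
  rw [hj1', hj2'] at hq
  choose P hP1 hP2 using hp
  choose Q hQ1 hQ2 using hq
  refine ⟨H, inferInstance, inferInstance, j, j', φ, P, Q, hH, hφ, hP1, hQ1, ?_, ?_⟩
  · intro v hv
    have hTv := hzT v hv
    have hyy := hzy v hv
    have hxv := val_mob v hΔ hd hx hξ hTv
    have hxv' := val_mob v hΔ' hd' hx' hξ' hTv
    have hPv := hP2 v
    have hQv := hQ2 v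
    match hP : P v, hQ : Q v with
    | .inf, _ =>
      rw [hP] at hPv
      exact absurd (Place.reg_of_val hxv) (not_reg_of_ord_lt v hPv)
    | .aff ξ₁ η₁ h₁, .inf =>
      rw [hQ] at hQv
      exact absurd (Place.reg_of_val hxv') (not_reg_of_ord_lt v hQv)
    | .aff ξ₁ η₁ h₁, .aff ξ₂ η₂ h₂ =>
      rw [hP] at hPv
      rw [hQ] at hQv
      obtain ⟨a1, a2⟩ := hPv
      obtain ⟨b1, b2⟩ := hQv
      have e1 : ξ₁ = ξ := Place.val_unique a1 hxv
      have e2 : ξ₂ = ξ' := Place.val_unique b1 hxv'
      have e3 : η₁ * η₂ = η * η' := Place.val_unique (Place.val_mul a2 b2) hyy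
      subst e1 e2
      rcases sq_eq_sq_iff_eq_or_eq_neg.1 (h₁.trans h.symm) with rfl | rfl
      · have : η₂ = η' := mul_left_cancel₀ hη e3
        subst this
        left
        exact ⟨rfl, rfl⟩
      · have : η₂ = -η' := by
          apply mul_left_cancel₀ hη
          linear_combination -e3
        subst this
        right
        exact ⟨rfl, rfl⟩
  · intro v hv
    right
    have hTv := hpole v hv
    have hQv := hQ2 v
    match hQ : Q v with
    | .inf => rfl
    | .aff ξ₂ η₂ h₂ =>
      rw [hQ] at hQv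
      obtain ⟨b1, b2⟩ := hQv
      by_cases hγ : γ' = 0
      · exfalso
        apply hTv
        have hα : α' ≠ 0 := by
          rintro rfl
          apply hΔ'
          rw [hγ]; ring
        have hα' : algebraMap k H α' ≠ 0 := by
          rwa [Ne, map_eq_zero_iff _ (algebraMap k H).injective]
        have h1 : T = algebraMap k H (α'⁻¹) * (x' * algebraMap k H δ' - algebraMap k H β') := by
          rw [hγ, map_zero, zero_mul, zero_add] at hx'
          rw [hx', add_sub_cancel_right, map_inv₀, inv_mul_cancel_left₀ hα']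
        rw [h1]
        exact (v.reg_const _).mul (((Place.reg_of_val b1).mul (v.reg_const _)).sub
          (v.reg_const _))
      · have h1 := val_mob_inf v hγ hd' hx' hTv
        have e1 : ξ₂ = α' / γ' := Place.val_unique b1 h1
        have e2 := hinf.resolve_left hγ
        rw [← e1, ← h₂] at e2
        have e3 : η₂ = 0 := pow_eq_zero_iff (two_ne_zero) |>.1 e2
        subst e3
        simp [neg]

theorem vv_of_neg {P : Pt f} (h : neg P = P) : vv (ww f) (vp P) = 0 := by
  have h1 := vv_neg P
  rw [h] at h1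
  apply eq_zero_of_nsmul 2 (by norm_num)
  rw [two_smul]
  nth_rewrite 1 [h1]
  exact neg_add_cancel _

/-- the pair lemma on one curve -/
theorem pair_of_data {P Q : Pt f} (h : Data P Q) :
    vv (ww f) (vp P) * vv (ww f) (vp Q) = 0 := by
  obtain ⟨H, _, _, j, j', φ, p, q, hH, hφ, hp, hq, h0, h1⟩ := h
  refine vv_zero hH (ww f) j j' hφ (fun v => vp (p v)) (fun v => vp (q v)) hp hq _ ?_ ?_
  · intro v hv
    show vv (ww f) (vp (p v)) * vv (ww f) (vp (q v)) = _
    rcases h0 v hv with ⟨e1, e2⟩ | ⟨e1, e2⟩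
    · rw [e1, e2]
    · rw [e1, e2, vv_neg, vv_neg]
      ring
  · intro v hv
    show vv (ww f) (vp (p v)) * vv (ww f) (vp (q v)) = 0
    rcases h1 v hv with h1 | h1
    · rw [vv_of_neg h1, zero_mul]
    · rw [vv_of_neg h1, mul_zero]

end Pool.Agent.LibDih3
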