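import Pool.Agent.LibDih3.MobLem

/-!
The dihedral family: the curves `y ^ 2 = (x ^ 5 - 1) (x - l)`, in the coordinate `1 / (x - l)`.
-/

open scoped Classical
open Polynomial

namespace Pool.Agent.LibDih3

open Pool.Agent.LibJac77 (Genus2 Pt KC)

variable {k : Type} [Field k]

/-- The quintic `∏ (X - 1 / (ζ ^ j - l))`: for a primitive fifth root of unity `ζ` the curve
`y ^ 2 = f(x)` is the curve of genus two branched over `l` and the fifth roots of unity, in the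
coordinate `1 / (x - l)`. -/
noncomputable def fD (ζ l : k) : k[X] := ∏ j : Fin 5, (X - C (1 / (ζ ^ (j : ℕ) - l)))

theorem pow_ne {ζ l : k} (hζ : IsPrimitiveRoot ζ 5) (hl : l ^ 10 ≠ 1) (j : ℕ) : ζ ^ j ≠ l := by
  rintro rfl
  apply hl
  rw [← pow_mul, mul_comm, show (10 : ℕ) = 5 * 2 from rfl, mul_assoc, pow_mul, hζ.pow_eq_one,
    one_pow]

theorem inv_inj5 {ζ l : k} (hζ : IsPrimitiveRoot ζ 5) (hl : l ^ 10 ≠ 1) :
    Function.Injective fun j : Fin 5 => 1 / (ζ ^ (j : ℕ) - l) := by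
  intro i j h
  have hi : ζ ^ (i : ℕ) - l ≠ 0 := sub_ne_zero.2 (pow_ne hζ hl _)
  have hj : ζ ^ (j : ℕ) - l ≠ 0 := sub_ne_zero.2 (pow_ne hζ hl _)
  have h1 : 1 / (ζ ^ (i : ℕ) - l) = 1 / (ζ ^ (j : ℕ) - l) := h
  rw [div_eq_div_iff hi hj, one_mul, one_mul] at h1
  have h2 : ζ ^ (i : ℕ) = ζ ^ (j : ℕ) := by linear_combination -h1
  exact Fin.ext (hζ.pow_inj i.2 j.2 h2)

theorem genus2_fD {ζ l : k} (hζ : IsPrimitiveRoot ζ 5) (hl : l ^ 10 ≠ 1) : Genus2 (fD ζ l) where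
  monic := monic_prod_of_monic _ _ fun j _ => monic_X_sub_C _
  deg := by
    rw [fD, natDegree_prod_of_monic _ _ fun j _ => monic_X_sub_C _]
    simp
  sqf := by
    have h1 : (fD ζ l).Separable :=
      separable_prod_X_sub_C_iff.2 (inv_inj5 hζ hl)
    exact h1.squarefree

theorem eval_fD {ζ l x : k} : (fD ζ l).eval x = 0 ↔ ∃ j : Fin 5, x = 1 / (ζ ^ (j : ℕ) - l) := by
  rw [fD, eval_prod, Finset.prod_eq_zero_iff]
  constructor
  · rintro ⟨j, _, h⟩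
    rw [eval_sub, eval_X, eval_C, sub_eq_zero] at h
    exact ⟨j, h⟩
  · rintro ⟨j, h⟩
    exact ⟨j, Finset.mem_univ _, by rw [eval_sub, eval_X, eval_C, sub_eq_zero]; exact h⟩

/-- the projective map of a matrix -/
noncomputable def mk2 (a b c d : k) (h : a * d - b * c ≠ 0) : GL (Fin 2) k :=
  Matrix.GeneralLinearGroup.mkOfDetNeZero !![a, b; c, d] (by rw [Matrix.det_fin_two]; exact h)

theorem mk2_coe (a b c d : k) (h : a * d - b * c ≠ 0) (t ξ : k) :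
    mk2 a b c d h • (t : OnePoint k) = (ξ : OnePoint k) ↔ ξ * (c * t + d) = a * t + b :=
  smul_coe_iff _ t ξ

theorem mk2_coe_infty (a b c d : k) (h : a * d - b * c ≠ 0) (t : k) :
    mk2 a b c d h • (t : OnePoint k) = OnePoint.infty ↔ c * t + d = 0 :=
  smul_coe_eq_infty_iff _ t

theorem mk2_infty (a b c d : k) (h : a * d - b * c ≠ 0) :
    mk2 a b c d h • (OnePoint.infty : OnePoint k) =
      if c = 0 then OnePoint.infty else ((a / c : k) : OnePoint k) :=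
  OnePoint.smul_infty_eq_ite _

/-- the branch points on the line of `x` -/
theorem mem_BrAt_fD {ζ l : k} (hζ : IsPrimitiveRoot ζ 5) (hl : l ^ 10 ≠ 1) (z : OnePoint k) :
    z ∈ BrAt (fD ζ l) (mk2 0 1 1 (-l) (by simp)) ↔
      z = (l : OnePoint k) ∨ ∃ j : Fin 5, z = ((ζ ^ (j : ℕ) : k) : OnePoint k) := by
  show (_ = OnePoint.infty ∨ ∃ x : k, _ = (x : OnePoint k) ∧ (fD ζ l).eval x = 0) ↔ _
  induction z using OnePoint.rec with
  | infty =>
    rw [mk2_infty, if_neg one_ne_zero]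
    constructor
    · rintro (h | ⟨x, h, h'⟩)
      · exact absurd h (OnePoint.coe_ne_infty _)
      · exfalso
        rw [OnePoint.coe_eq_coe] at h
        obtain ⟨j, hj⟩ := eval_fD.1 h'
        have h3 : ζ ^ (j : ℕ) - l ≠ 0 := sub_ne_zero.2 (pow_ne hζ hl _)
        rw [← h, zero_div] at hj
        exact (one_div_ne_zero h3) hj.symm
    · rintro (h | ⟨j, h⟩)
      · exact absurd h (OnePoint.infty_ne_coe _)
      · exact absurd h (OnePoint.infty_ne_coe _)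
  | coe t =>
    rw [mk2_coe_infty]
    constructor
    · rintro (h | ⟨x, h, h'⟩)
      · left
        rw [OnePoint.coe_eq_coe]
        linear_combination h
      · right
        rw [mk2_coe] at h
        obtain ⟨j, hj⟩ := eval_fD.1 h'
        refine ⟨j, ?_⟩
        rw [OnePoint.coe_eq_coe]
        have h3 : ζ ^ (j : ℕ) - l ≠ 0 := sub_ne_zero.2 (pow_ne hζ hl _)
        rw [hj, one_div, inv_mul_eq_iff_eq_mul₀ h3] at h
        linear_combination h
    · rintro (h | ⟨j, h⟩)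
      · left
        rw [OnePoint.coe_eq_coe] at h
        rw [h]
        ring
      · right
        rw [OnePoint.coe_eq_coe] at h
        have h3 : ζ ^ (j : ℕ) - l ≠ 0 := sub_ne_zero.2 (pow_ne hζ hl _)
        refine ⟨_, ?_, eval_fD.2 ⟨j, rfl⟩⟩
        rw [mk2_coe, h]
        have h4 : (1 : k) * ζ ^ (j : ℕ) + -l = ζ ^ (j : ℕ) - l := by ring
        rw [h4, one_div, inv_mul_cancel₀ h3]
        ring

/-- the elements of the dihedral group: `x ↦ ζ ^ j x` and `x ↦ ζ ^ j / x` -/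
noncomputable def dg (ζ : k) (hζ : ζ ≠ 0) (a : Fin 5 × Bool) : GL (Fin 2) k :=
  if a.2 then mk2 0 (ζ ^ (a.1 : ℕ)) 1 0 (by simp [hζ]) else mk2 (ζ ^ (a.1 : ℕ)) 0 0 1 (by simp [hζ])

/-- the preimage of `l` -/
noncomputable def pl (ζ l : k) (a : Fin 5 × Bool) : k :=
  if a.2 then ζ ^ (a.1 : ℕ) / l else l / ζ ^ (a.1 : ℕ)

theorem dg_smul_eq {ζ : k} (hζ : ζ ≠ 0) (a : Fin 5 × Bool) {l : k} (hl : l ≠ 0) (z : OnePoint k) :
    dg ζ hζ a • z = (l : OnePoint k) ↔ z = ((pl ζ l a : k) : OnePoint k) := by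
  have h1 : ζ ^ (a.1 : ℕ) ≠ 0 := pow_ne_zero _ hζ
  rw [dg, pl]
  by_cases h : a.2
  · rw [if_pos h, if_pos h]
    induction z using OnePoint.rec with
    | infty =>
      rw [mk2_infty, if_neg one_ne_zero, zero_div, OnePoint.coe_eq_coe]
      constructor
      · intro h; exact absurd h.symm hl
      · intro h; exact absurd h (OnePoint.infty_ne_coe _)
    | coe t =>
      rw [mk2_coe, OnePoint.coe_eq_coe, eq_div_iff hl]
      constructor
      · intro h; linear_combination h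
      · intro h; linear_combination h
  · rw [if_neg h, if_neg h]
    induction z using OnePoint.rec with
    | infty =>
      rw [mk2_infty, if_pos rfl]
      constructor
      · intro h; exact absurd h (OnePoint.infty_ne_coe _)
      · intro h; exact absurd h (OnePoint.infty_ne_coe _)
    | coe t =>
      rw [mk2_coe, OnePoint.coe_eq_coe, eq_div_iff h1]
      constructor
      · intro h; linear_combination -h
      · intro h; linear_combination -h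

theorem exists_pow {ζ : k} (hζ : IsPrimitiveRoot ζ 5) {x : k} (hx : x ^ 5 = 1) :
    ∃ j : Fin 5, x = ζ ^ (j : ℕ) := by
  obtain ⟨i, hi, h⟩ := hζ.eq_pow_of_pow_eq_one hx
  exact ⟨⟨i, hi⟩, h.symm⟩

theorem pl_pow {ζ : k} (hζ : IsPrimitiveRoot ζ 5) (a : Fin 5 × Bool) {x : k} (hx : x ^ 5 = 1) :
    (pl ζ x a) ^ 5 = 1 := by
  have h1 : (ζ ^ (a.1 : ℕ)) ^ 5 = 1 := by
    rw [← pow_mul, mul_comm, pow_mul, hζ.pow_eq_one, one_pow]
  rw [pl]
  split_ifs
  · rw [div_pow, h1, hx, div_one]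
  · rw [div_pow, h1, hx, div_one]

theorem dg_pow {ζ : k} (hζ : IsPrimitiveRoot ζ 5) (a : Fin 5 × Bool) {x : k} (hx : x ^ 5 = 1) :
    ∃ j : Fin 5, dg ζ (hζ.ne_zero (by norm_num)) a • (x : OnePoint k) =
      ((ζ ^ (j : ℕ) : k) : OnePoint k) := by
  have hζ0 : ζ ≠ 0 := hζ.ne_zero (by norm_num)
  have h1 : (ζ ^ (a.1 : ℕ)) ^ 5 = 1 := by
    rw [← pow_mul, mul_comm, pow_mul, hζ.pow_eq_one, one_pow]
  have hx0 : x ≠ 0 := by
    rintro rfl
    simp at hx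
  rw [dg]
  by_cases h : a.2
  · rw [if_pos h]
    obtain ⟨j, hj⟩ := exists_pow hζ (x := ζ ^ (a.1 : ℕ) / x) (by rw [div_pow, h1, hx, div_one])
    refine ⟨j, ?_⟩
    rw [mk2_coe, ← hj]
    field_simp
    ring
  · rw [if_neg h]
    obtain ⟨j, hj⟩ := exists_pow hζ (x := ζ ^ (a.1 : ℕ) * x) (by rw [mul_pow, h1, hx, one_mul])
    refine ⟨j, ?_⟩
    rw [mk2_coe, ← hj]
    ring

/-- the projective maps of the dihedral family -/
noncomputable def gD (ζ : k) (hζ : ζ ≠ 0) (l : k) (a : Fin 5 × Bool) : GL (Fin 2) k :=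
  mk2 0 1 1 (-l) (by simp) * dg ζ hζ a

theorem mem_BrAt_gD {ζ l : k} (hζ : IsPrimitiveRoot ζ 5) (hl0 : l ≠ 0) (hl : l ^ 10 ≠ 1)
    (a : Fin 5 × Bool) (z : OnePoint k) :
    z ∈ BrAt (fD ζ l) (gD ζ (hζ.ne_zero (by norm_num)) l a) ↔
      z = ((pl ζ l a : k) : OnePoint k) ∨ ∃ j : Fin 5, z = ((ζ ^ (j : ℕ) : k) : OnePoint k) := by
  have hζ0 : ζ ≠ 0 := hζ.ne_zero (by norm_num)
  rw [gD, mem_BrAt_mul, mem_BrAt_fD hζ hl, dg_smul_eq hζ0 a hl0]
  constructor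
  · rintro (h | ⟨j, h⟩)
    · exact Or.inl h
    · right
      have h5 : (ζ ^ (j : ℕ)) ^ 5 = 1 := by
        rw [← pow_mul, mul_comm, pow_mul, hζ.pow_eq_one, one_pow]
      rw [dg_smul_eq hζ0 a (pow_ne_zero _ hζ0)] at h
      obtain ⟨i, hi⟩ := exists_pow hζ (pl_pow hζ a h5)
      exact ⟨i, by rw [h, hi]⟩
  · rintro (h | ⟨j, h⟩)
    · exact Or.inl h
    · right
      have h5 : (ζ ^ (j : ℕ)) ^ 5 = 1 := by
        rw [← pow_mul, mul_comm, pow_mul, hζ.pow_eq_one, one_pow]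
      rw [h]
      exact dg_pow hζ a h5

/-- all sextuples of the family have five common points -/
theorem five_le_gD {ζ l l' : k} (hζ : IsPrimitiveRoot ζ 5) (hl0 : l ≠ 0) (hl : l ^ 10 ≠ 1)
    (hl0' : l' ≠ 0) (hl' : l' ^ 10 ≠ 1) (a a' : Fin 5 × Bool) :
    5 ≤ (BrAt (fD ζ l) (gD ζ (hζ.ne_zero (by norm_num)) l a) ∩
      BrAt (fD ζ l') (gD ζ (hζ.ne_zero (by norm_num)) l' a')).ncard := by
  have h1 : Set.range (fun j : Fin 5 => ((ζ ^ (j : ℕ) : k) : OnePoint k)) ⊆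
      BrAt (fD ζ l) (gD ζ (hζ.ne_zero (by norm_num)) l a) ∩
      BrAt (fD ζ l') (gD ζ (hζ.ne_zero (by norm_num)) l' a') := by
    rintro _ ⟨j, rfl⟩
    exact ⟨(mem_BrAt_gD hζ hl0 hl a _).2 (Or.inr ⟨j, rfl⟩),
      (mem_BrAt_gD hζ hl0' hl' a' _).2 (Or.inr ⟨j, rfl⟩)⟩
  have h2 : (Set.range (fun j : Fin 5 => ((ζ ^ (j : ℕ) : k) : OnePoint k))).ncard = 5 := by
    rw [← Set.image_univ, Set.ncard_image_of_injective, Set.ncard_univ]
    · simp
    · intro i j h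
      have h3 : ζ ^ (i : ℕ) = ζ ^ (j : ℕ) := OnePoint.coe_eq_coe.1 h
      exact Fin.ext (hζ.pow_inj i.2 j.2 h3)
  have hfin : (BrAt (fD ζ l) (gD ζ (hζ.ne_zero (by norm_num)) l a) ∩
      BrAt (fD ζ l') (gD ζ (hζ.ne_zero (by norm_num)) l' a')).Finite := by
    have h4 : BrAt (fD ζ l) (gD ζ (hζ.ne_zero (by norm_num)) l a) ⊆
        insert ((pl ζ l a : k) : OnePoint k)
          (Set.range (fun j : Fin 5 => ((ζ ^ (j : ℕ) : k) : OnePoint k))) := by
      intro z hz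
      rcases (mem_BrAt_gD hζ hl0 hl a z).1 hz with h | ⟨j, h⟩
      · exact Or.inl h
      · exact Or.inr ⟨j, h.symm⟩
    exact (((Set.finite_range _).insert _).subset h4).subset Set.inter_subset_left
  exact h2.symm.le.trans (Set.ncard_le_ncard h1 hfin)

theorem pl_injective {ζ l : k} (hζ : IsPrimitiveRoot ζ 5) (hl0 : l ≠ 0) (hl : l ^ 10 ≠ 1) :
    Function.Injective (pl ζ l) := by
  have hζ0 : ζ ≠ 0 := hζ.ne_zero (by norm_num)
  have h5 : ∀ j : Fin 5, (ζ ^ (j : ℕ)) ^ 5 = 1 := by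
    intro j
    rw [← pow_mul, mul_comm, pow_mul, hζ.pow_eq_one, one_pow]
  have hmix : ∀ i j : Fin 5, ζ ^ (i : ℕ) / l ≠ l / ζ ^ (j : ℕ) := by
    intro i j h
    rw [div_eq_div_iff hl0 (pow_ne_zero _ hζ0)] at h
    apply hl
    have h1 : l ^ 10 = (l * l) ^ 5 := by ring
    rw [h1, ← h, mul_pow, h5, h5, one_mul]
  rintro ⟨i, b⟩ ⟨j, c⟩ h
  cases b <;> cases c
  · have h1 : l / ζ ^ (i : ℕ) = l / ζ ^ (j : ℕ) := h
    rw [div_eq_div_iff (pow_ne_zero _ hζ0) (pow_ne_zero _ hζ0)] at h1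
    have h2 := mul_left_cancel₀ hl0 h1
    rw [Fin.ext (hζ.pow_inj j.2 i.2 h2)]
  · exact absurd h.symm (hmix j i)
  · exact absurd h (hmix i j)
  · have h1 : ζ ^ (i : ℕ) / l = ζ ^ (j : ℕ) / l := h
    rw [div_left_inj' hl0] at h1
    rw [Fin.ext (hζ.pow_inj i.2 j.2 h1)]

/-- the sextuples of one curve are different -/
theorem BrAt_gD_injective {ζ l : k} (hζ : IsPrimitiveRoot ζ 5) (hl0 : l ≠ 0) (hl : l ^ 10 ≠ 1) :
    Function.Injective fun a => BrAt (fD ζ l) (gD ζ (hζ.ne_zero (by norm_num)) l a) := by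
  intro a a' h
  have h0 : BrAt (fD ζ l) (gD ζ (hζ.ne_zero (by norm_num)) l a) =
      BrAt (fD ζ l) (gD ζ (hζ.ne_zero (by norm_num)) l a') := h
  have h1 : ((pl ζ l a : k) : OnePoint k) ∈
      BrAt (fD ζ l) (gD ζ (hζ.ne_zero (by norm_num)) l a) :=
    (mem_BrAt_gD hζ hl0 hl a _).2 (Or.inl rfl)
  rw [h0] at h1
  rcases (mem_BrAt_gD hζ hl0 hl a' _).1 h1 with h2 | ⟨j, h2⟩
  · exact pl_injective hζ hl0 hl (OnePoint.coe_eq_coe.1 h2)
  · exfalso
    have h3 : pl ζ l a = ζ ^ (j : ℕ) := OnePoint.coe_eq_coe.1 h2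
    have h5 : ∀ j : ℕ, (ζ ^ j) ^ 5 = 1 := by
      intro j
      rw [← pow_mul, mul_comm, pow_mul, hζ.pow_eq_one, one_pow]
    have h4 : (pl ζ l a) ^ 5 = 1 := by rw [h3, h5]
    have h6 : l ^ 5 = 1 := by
      rw [pl] at h4
      split_ifs at h4
      · rw [div_pow, h5, div_eq_one_iff_eq (pow_ne_zero _ hl0)] at h4
        exact h4.symm
      · rw [div_pow, h5, div_one] at h4
        exact h4
    apply hl
    rw [show (10 : ℕ) = 5 * 2 from rfl, pow_mul, h6, one_pow]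

/-- the dihedral family -/
theorem exists_dihedral {ζ : k} (hζ : IsPrimitiveRoot ζ 5) {I : Type} (l : I → k)
    (hl : ∀ i, l i ≠ 0 ∧ l i ^ 10 ≠ 1) :
    (∀ i, Genus2 (fD ζ (l i))) ∧ ∃ g : I → Fin 10 → GL (Fin 2) k,
      Related (fun i => fD ζ (l i)) g ∧
      ∀ i, Function.Injective fun a => BrAt (fD ζ (l i)) (g i a) := by
  have e : Fin 10 ≃ Fin 5 × Bool :=
    Fintype.equivOfCardEq (by simp)
  refine ⟨fun i => genus2_fD hζ (hl i).2,
    fun i a => gD ζ (hζ.ne_zero (by norm_num)) (l i) (e a), ?_, ?_⟩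
  · intro i i' a a'
    left
    exact five_le_gD hζ (hl i).1 (hl i).2 (hl i').1 (hl i').2 _ _
  · intro i
    exact (BrAt_gD_injective hζ (hl i).1 (hl i).2).comp e.injective

end Pool.Agent.LibDih3
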