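import Pool.Agent.LibQC8.Defs

/-!
Products of symmetric powers of curves: zero-cycles on `∏ C_i^(N_i)` and rational equivalence. The
curves `C_i` over the algebraically closed field `k` are given by their function fields `F i`; with
the disjoint union `C` of the curves `C_i`, the variety `C^(N)` is the disjoint union of the products
`∏ C_i^(N_i)`, `∑ N_i = N`; its points are the multisets of `N` points of `C`.
-/

open scoped Classical

namespace Pool.Agent.LibDih3

open Pool.Agent.LibBH2 Pool.Agent.LibQC8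

/-- The points of the disjoint union `C` of the curves `C_i`. -/
abbrev UPt (k : Type) [Field k] {I : Type} (F : I → Type) [∀ i, Field (F i)]
    [∀ i, Algebra k (F i)] : Type := Σ i, Place k (F i)

/-- The `H`-points of `C`: a constant point of some `C_i`, or a `k`-embedding of some `F i` in the
function field `H`, i.e. a non-constant map from the curve of `H` to `C_i`. -/
abbrev UMap (k : Type) [Field k] {I : Type} (F : I → Type) [∀ i, Field (F i)]
    [∀ i, Algebra k (F i)] (H : Type) [Field H] [Algebra k H] : Type :=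
  Σ i, (Place k (F i) ⊕ (F i →ₐ[k] H))

variable {k : Type} [Field k] {I : Type} {F : I → Type} [∀ i, Field (F i)] [∀ i, Algebra k (F i)]

/-- `SpecU v T a`: the `H`-point `T` of `C` has the value `a` at the point `v` of the curve of `H`. -/
def SpecU {H : Type} [Field H] [Algebra k H] (v : Place k H) (T : UMap k F H) (a : UPt k F) :
    Prop :=
  ∃ b : Place k (F T.1), a = ⟨T.1, b⟩ ∧ Spec v T.2 b

/-- The zero-cycle `c` on `C^(N)` is the push-forward of the divisor of a function `φ` on a curve:
`H` is a function field of one variable over `k`, `T 0, ..., T (N-1)` are `H`-points of `C`, and `c`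
is the sum over the places `v` of `H` of `ord_v φ` times the point `T 0 (v) + ... + T (N-1) (v)` of
`C^(N)`. -/
def IsPushU (N : ℕ) (c : Multiset (UPt k F) →₀ ℤ) : Prop :=
  ∃ (H : Type) (_ : Field H) (_ : Algebra k H) (T : Fin N → UMap k F H) (φ : H)
    (S : Finset (Place k H)) (p : Place k H → Fin N → UPt k F),
    IsFunctionField k H ∧ φ ≠ 0 ∧ (∀ v, v.ord φ ≠ 0 → v ∈ S) ∧
    (∀ v ∈ S, ∀ j, SpecU v (T j) (p v j)) ∧
    c = ∑ v ∈ S, Finsupp.single (Finset.univ.val.map (p v)) (v.ord φ)

/-- The zero-cycle `c` on `C^(N)` is torsion in the Chow group of zero-cycles. -/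
def IsTorsionU (N : ℕ) (c : Multiset (UPt k F) →₀ ℤ) : Prop :=
  ∃ n : ℕ, 0 < n ∧ n • c ∈ AddSubgroup.closure {c' | IsPushU N c'}

variable [Fintype I]

/-- The point of `∏ C_i^(N_i)` given by effective divisors `D i` of degree `N i` on `C_i`. -/
noncomputable def pt (D : ∀ i, Multiset (Place k (F i))) : Multiset (UPt k F) :=
  ∑ i, (D i).map (Sigma.mk i)

/-- `c = ∑ m_j D_j` is a zero-cycle on `∏ C_i^(N_i)` of degree `0` with torsion sum, supported at
points `D_j = (D_{j,i})_i` such that the class of `D_{j,i} - N_i w_i` is `ξ_i + u_{j,i}`, with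
`u_{j,i}` in the set `U i` of classes on `C_i`. -/
def CycleOnU (w : ∀ i, Place k (F i)) (U : ∀ i, Set (Pic0 k (F i))) (ξ : ∀ i, Pic0 k (F i))
    (N : I → ℕ) (c : Multiset (UPt k F) →₀ ℤ) : Prop :=
  ∃ (n : ℕ) (D : Fin n → ∀ i, Multiset (Place k (F i))) (m : Fin n → ℤ)
    (u : Fin n → ∀ i, Pic0 k (F i)),
    (∀ j i, (D j i).card = N i ∧ u j i ∈ U i ∧ cl (w i) (D j i) = ξ i + u j i) ∧
    (∀ i, DegreeSumZero m fun j => u j i) ∧ ∑ j, m j = 0 ∧
    c = ∑ j, Finsupp.single (pt (D j)) (m j)

/-- Every zero-cycle of degree `0` with torsion sum supported on a translate of `∏ U i`, on any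
`∏ C_i^(N_i)`, is torsion in the Chow group. -/
def TorsionOnU (w : ∀ i, Place k (F i)) (U : ∀ i, Set (Pic0 k (F i))) : Prop :=
  ∀ (ξ : ∀ i, Pic0 k (F i)) (N : I → ℕ) (c : Multiset (UPt k F) →₀ ℤ), CycleOnU w U ξ N c →
    IsTorsionU (∑ i, N i) c

end Pool.Agent.LibDih3
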