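import Pool.Agent.LibDih3.FamRing
import Pool.Agent.LibDih3.Data

/-!
Push-forward of principal divisors by pairs of maps to two curves of the family.
-/

open scoped Classical

namespace Pool.Agent.LibDih3

open Pool.Agent.LibBH2 Pool.Agent.LibQC8 Pool.Agent.LibLP34 Pool.Agent.LibK4

section

variable {k H : Type} [Field k] [Field H] [Algebra k H] {I : Type} {F : I → Type}
  [∀ i, Field (F i)] [∀ i, Algebra k (F i)]

/-- the relation given by a pair of maps -/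
theorem pushU_y (hH : IsFunctionField k H) (T : Fin 2 → UMap k F H) {φ : H} (hφ : φ ≠ 0)
    (S : Finset (Place k H)) (hS : ∀ v, v.ord φ ≠ 0 → v ∈ S) (p : Place k H → Fin 2 → UPt k F)
    (hp : ∀ v ∈ S, ∀ i, SpecU v (T i) (p v i)) :
    ∑ v ∈ S, v.ord φ • (yU (p v 0) * yU (p v 1) : ChU k F) = 0 := by
  have hpush : IsPushU 2 (∑ v ∈ S, Finsupp.single (Finset.univ.val.map (p v)) (v.ord φ)) :=
    ⟨H, _, _, T, φ, S, p, hH, hφ, hS, hp, rfl⟩
  have hmem : ι (∑ v ∈ S, Finsupp.single (Finset.univ.val.map (p v)) (v.ord φ)) ∈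
      relIdealU k F := Submodule.subset_span ⟨_, ⟨2, hpush⟩, rfl⟩
  have h0 := Ideal.Quotient.eq_zero_iff_mem.2 hmem
  rw [map_sum, map_sum] at h0
  rw [← h0]
  refine Finset.sum_congr rfl fun v _ => ?_
  rw [ι_single, mk_smulU, mk_monoU, Multiset.map_map, Int.cast_smul_eq_zsmul]
  congr 1
  simp [Fin.univ_succ]

/-- the class of a point minus the class of the base point, in the ring of the family -/
noncomputable def vU (w : ∀ i, Place k (F i)) (i : I) (a : Place k (F i)) : ChU k F :=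
  yU ⟨i, a⟩ - yU ⟨i, w i⟩

theorem inc_vv (w : ∀ i, Place k (F i)) (i : I) (a : Place k (F i)) :
    inc F i (vv (w i) a) = vU w i a := by
  rw [vv, map_sub, inc_y, inc_y]
  rfl

theorem pushU_vv (hH : IsFunctionField k H) (w : ∀ i, Place k (F i)) (i i' : I)
    (T₀ : F i →ₐ[k] H) (T₁ : F i' →ₐ[k] H) {φ : H} (hφ : φ ≠ 0)
    (S : Finset (Place k H)) (hS : ∀ v, v.ord φ ≠ 0 → v ∈ S) (p : Place k H → Place k (F i))
    (q : Place k H → Place k (F i'))
    (hp : ∀ v, Spec v (.inr T₀) (p v)) (hq : ∀ v, Spec v (.inr T₁) (q v)) :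
    ∑ v ∈ S, v.ord φ • (vU w i (p v) * vU w i' (q v)) = 0 := by
  have h1 := pushU_y hH (F := F) ![⟨i, .inr T₀⟩, ⟨i', .inr T₁⟩] hφ S hS
    (fun v => ![⟨i, p v⟩, ⟨i', q v⟩]) (by
    intro v _ j
    fin_cases j
    · exact ⟨_, rfl, hp v⟩
    · exact ⟨_, rfl, hq v⟩)
  have h2 := pushU_y hH (F := F) ![⟨i, .inr T₀⟩, ⟨i', .inl (w i')⟩] hφ S hS
    (fun v => ![⟨i, p v⟩, ⟨i', w i'⟩]) (by
    intro v _ j
    fin_cases j
    · exact ⟨_, rfl, hp v⟩
    · exact ⟨_, rfl, rfl⟩)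
  have h3 := pushU_y hH (F := F) ![⟨i, .inl (w i)⟩, ⟨i', .inr T₁⟩] hφ S hS
    (fun v => ![⟨i, w i⟩, ⟨i', q v⟩]) (by
    intro v _ j
    fin_cases j
    · exact ⟨_, rfl, rfl⟩
    · exact ⟨_, rfl, hq v⟩)
  have h4 := pushU_y hH (F := F) ![⟨i, .inl (w i)⟩, ⟨i', .inl (w i')⟩] hφ S hS
    (fun v => ![⟨i, w i⟩, ⟨i', w i'⟩]) (by
    intro v _ j
    fin_cases j
    · exact ⟨_, rfl, rfl⟩
    · exact ⟨_, rfl, rfl⟩)
  simp only [Matrix.cons_val_zero, Matrix.cons_val_one] at h1 h2 h3 h4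
  have h5 : ∀ v, v.ord φ • (vU w i (p v) * vU w i' (q v)) =
      v.ord φ • (yU ⟨i, p v⟩ * yU ⟨i', q v⟩ : ChU k F) -
      v.ord φ • (yU ⟨i, p v⟩ * yU ⟨i', w i'⟩) - v.ord φ • (yU ⟨i, w i⟩ * yU ⟨i', q v⟩) +
      v.ord φ • (yU ⟨i, w i⟩ * yU ⟨i', w i'⟩) := by
    intro v
    rw [← smul_sub, ← smul_sub, ← smul_add]
    congr 1
    rw [vU, vU]
    ring
  rw [Finset.sum_congr rfl fun v _ => h5 v, Finset.sum_add_distrib, Finset.sum_sub_distrib,
    Finset.sum_sub_distrib, h1, h2, h3, h4]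
  simp

/-- if all zeros of a function give the class `c` and the poles give nothing then `c = 0` -/
theorem vU_zero [IsAlgClosed k] (hH : IsFunctionField k H) (w : ∀ i, Place k (F i)) (i i' : I)
    (T₀ : F i →ₐ[k] H) (T₁ : F i' →ₐ[k] H) {φ : H} (hφ : Transcendental k φ)
    (p : Place k H → Place k (F i)) (q : Place k H → Place k (F i'))
    (hp : ∀ v, Spec v (.inr T₀) (p v)) (hq : ∀ v, Spec v (.inr T₁) (q v)) (c : ChU k F)
    (h0 : ∀ v : Place k H, 0 < v.ord φ → vU w i (p v) * vU w i' (q v) = c)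
    (h1 : ∀ v : Place k H, v.ord φ < 0 → vU w i (p v) * vU w i' (q v) = 0) : c = 0 := by
  obtain ⟨hfin, -⟩ := Pool.Agent.LibEnd77.Val8.sum_formula hH φ
  have hφ0 : φ ≠ 0 := by
    rintro rfl
    exact hφ isAlgebraic_zero
  have h2 := pushU_vv hH w i i' T₀ T₁ hφ0 hfin.toFinset (fun v hv => hfin.mem_toFinset.2 hv) p q
    hp hq
  have h3 : ∀ v ∈ hfin.toFinset, v.ord φ • (vU w i (p v) * vU w i' (q v)) =
      (max (v.ord φ) 0) • c := by
    intro v hv
    have hv : v.ord φ ≠ 0 := hfin.mem_toFinset.1 hv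
    rcases lt_or_gt_of_ne hv with h | h
    · rw [h1 v h, max_eq_right h.le, smul_zero, zero_smul]
    · rw [h0 v h, max_eq_left h.le]
  rw [Finset.sum_congr rfl h3, ← Finset.sum_smul] at h2
  obtain ⟨v, hv⟩ := Pool.Agent.LibEnd77.Val8.exists_zero hH hφ
  have h4 : 0 < ∑ v ∈ hfin.toFinset, max (v.ord φ) 0 := by
    refine Finset.sum_pos' (fun v _ => le_max_right _ _) ⟨v, ?_, ?_⟩
    · exact hfin.mem_toFinset.2 hv.ne'
    · exact lt_of_lt_of_le hv (le_max_left _ _)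
  obtain ⟨n, hn⟩ := Int.eq_ofNat_of_zero_le h4.le
  rw [hn, natCast_zsmul] at h2
  exact eq_zero_of_nsmulU n (by omega) c h2

end

section

open Pool.Agent.LibJac77 (Genus2 Pt KC DCf vp dv neg jP Pic mk)
open Polynomial

variable {k : Type} [Field k] [CharZero k] [IsAlgClosed k] {I : Type} {f : I → k[X]}
  [∀ i, Genus2 (f i)]

/-- the base points of a family of curves of genus two -/
noncomputable def wU (f : I → k[X]) [∀ i, Genus2 (f i)] (i : I) : Place k (KC (f i)) := ww (f i)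

theorem inc_ww (i : I) (a : Place k (KC (f i))) :
    inc (fun i => KC (f i)) i (vv (ww (f i)) a) = vU (F := fun i => KC (f i)) (wU f) i a :=
  inc_vv (F := fun i => KC (f i)) (wU f) i a

theorem vU_neg (i : I) (P : Pt (f i)) :
    vU (F := fun i => KC (f i)) (wU f) i (vp (neg P)) =
      - vU (F := fun i => KC (f i)) (wU f) i (vp P) := by
  rw [← inc_ww, ← inc_ww, vv_neg, map_neg]

theorem vU_of_neg (i : I) {P : Pt (f i)} (h : neg P = P) :
    vU (F := fun i => KC (f i)) (wU f) i (vp P) = 0 := by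
  rw [← inc_ww, vv_of_neg h, map_zero]

/-- the pair lemma in the family -/
theorem pairU_of_data {i i' : I} {P : Pt (f i)} {Q : Pt (f i')} (h : Data P Q) :
    vU (F := fun i => KC (f i)) (wU f) i (vp P) *
      vU (F := fun i => KC (f i)) (wU f) i' (vp Q) = 0 := by
  obtain ⟨H, _, _, j, j', φ, p, q, hH, hφ, hp, hq, h0, h1⟩ := h
  refine vU_zero (F := fun i => KC (f i)) hH (wU f) i i' j j' hφ (fun v => vp (p v))
    (fun v => vp (q v)) hp hq _ ?_ ?_
  · intro v hv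
    show vU (F := fun i => KC (f i)) (wU f) i (vp (p v)) *
      vU (F := fun i => KC (f i)) (wU f) i' (vp (q v)) = _
    rcases h0 v hv with ⟨e1, e2⟩ | ⟨e1, e2⟩
    · rw [e1, e2]
    · rw [e1, e2, vU_neg, vU_neg]
      ring
  · intro v hv
    show vU (F := fun i => KC (f i)) (wU f) i (vp (p v)) *
      vU (F := fun i => KC (f i)) (wU f) i' (vp (q v)) = 0
    rcases h1 v hv with h1 | h1
    · rw [vU_of_neg i h1, zero_mul]
    · rw [vU_of_neg i' h1, mul_zero]

end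

end Pool.Agent.LibDih3
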