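import Pool.Agent.LibDih3.Fam
import Pool.Agent.LibLP34.Ring

/-!
The graded ring of zero-cycles on the products of symmetric powers of curves.
-/

open scoped Classical
open MvPolynomial

namespace Pool.Agent.LibDih3

open Pool.Agent.LibBH2 Pool.Agent.LibQC8 Pool.Agent.LibLP34

variable {k : Type} [Field k] {I : Type} {F : I → Type} [∀ i, Field (F i)] [∀ i, Algebra k (F i)]

/-- the cycles rationally equivalent to zero -/
noncomputable def relSpanU (k : Type) [Field k] {I : Type} (F : I → Type) [∀ i, Field (F i)]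
    [∀ i, Algebra k (F i)] : Submodule ℚ (MvPolynomial (UPt k F) ℚ) :=
  Submodule.span ℚ (ι '' {c | ∃ N, IsPushU N c})

theorem isPushU_cons {N : ℕ} {c : Multiset (UPt k F) →₀ ℤ} (h : IsPushU N c) (a : UPt k F) :
    ∃ c', IsPushU (N + 1) c' ∧ ι c' = X a * ι c := by
  obtain ⟨H, _, _, T, φ, S, p, hH, hφ, hS, hp, rfl⟩ := h
  refine ⟨∑ v ∈ S, Finsupp.single (Finset.univ.val.map (Fin.cons a (p v) : Fin (N + 1) → _))
    (v.ord φ), ⟨H, _, _, Fin.cons ⟨a.1, .inl a.2⟩ T, φ, S, fun v => Fin.cons a (p v), hH, hφ, hS,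
      ?_, rfl⟩, ?_⟩
  · intro v hv i
    refine Fin.cases ?_ (fun i => ?_) i
    · exact ⟨a.2, rfl, rfl⟩
    · simpa using hp v hv i
  · rw [map_sum, map_sum, Finset.mul_sum]
    refine Finset.sum_congr rfl fun v _ => ?_
    rw [ι_single, ι_single, mul_smul_comm, ← mono_cons]
    congr 2
    rw [Fin.univ_succ]
    simp

theorem X_mul_memU (a : UPt k F) (x : MvPolynomial (UPt k F) ℚ) (hx : x ∈ relSpanU k F) :
    X a * x ∈ relSpanU k F := by
  induction hx using Submodule.span_induction with
  | mem x hx =>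
    obtain ⟨c, ⟨N, hc⟩, rfl⟩ := hx
    obtain ⟨c', hc', e⟩ := isPushU_cons hc a
    rw [← e]
    exact Submodule.subset_span ⟨c', ⟨N + 1, hc'⟩, rfl⟩
  | zero => simp
  | add x y _ _ hx hy => rw [mul_add]; exact add_mem hx hy
  | smul q x _ hx => rw [mul_smul_comm]; exact Submodule.smul_mem _ _ hx

theorem mul_mem_relSpanU (r x : MvPolynomial (UPt k F) ℚ) (hx : x ∈ relSpanU k F) :
    r * x ∈ relSpanU k F := by
  induction r using MvPolynomial.induction_on with
  | C q => rw [← smul_eq_C_mul]; exact Submodule.smul_mem _ _ hx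
  | add p q hp hq => rw [add_mul]; exact add_mem hp hq
  | mul_X p a hp =>
    rw [mul_comm p, mul_assoc]
    exact X_mul_memU a _ hp

/-- the ideal of cycles rationally equivalent to zero -/
noncomputable def relIdealU (k : Type) [Field k] {I : Type} (F : I → Type) [∀ i, Field (F i)]
    [∀ i, Algebra k (F i)] : Ideal (MvPolynomial (UPt k F) ℚ) where
  carrier := relSpanU k F
  zero_mem' := zero_mem _
  add_mem' := fun h h' => add_mem h h'
  smul_mem' := fun r x hx => mul_mem_relSpanU r x hx

theorem card_of_isPushU {N : ℕ} {c : Multiset (UPt k F) →₀ ℤ} (h : IsPushU N c) :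
    ∀ D ∈ c.support, D.card = N := by
  obtain ⟨H, _, _, T, φ, S, p, hH, hφ, hS, hp, rfl⟩ := h
  intro D hD
  have := Finsupp.support_finsetSum hD
  rw [Finset.mem_biUnion] at this
  obtain ⟨v, _, hv⟩ := this
  have := Finsupp.support_single_subset hv
  rw [Finset.mem_singleton] at this
  rw [this]
  simp

/-- a cycle on `C^(N)` in the ideal is torsion -/
theorem torsion_of_memU {N : ℕ} {c : Multiset (UPt k F) →₀ ℤ} (hN : ∀ D ∈ c.support, D.card = N)
    (h : ι c ∈ relIdealU k F) : IsTorsionU N c := by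
  have h1 : ι c ∈ Submodule.span ℚ (ι '' {c' : Multiset (UPt k F) →₀ ℤ | IsPushU N c'}) := by
    have h2 : homogeneousComponent N (ι c) = ι c :=
      homogeneousComponent_of_mem (ι_homogeneous N c hN) ▸ by simp
    rw [← h2]
    have h3 : ι c ∈ relSpanU k F := h
    have h4 := Submodule.mem_map_of_mem (f := homogeneousComponent N) h3
    rw [relSpanU, Submodule.map_span] at h4
    refine Submodule.span_le.2 ?_ h4
    rintro _ ⟨_, ⟨c', ⟨N', hc'⟩, rfl⟩, rfl⟩
    rw [homogeneousComponent_of_mem (ι_homogeneous N' c' (card_of_isPushU hc'))]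
    split_ifs with e
    · subst e
      exact Submodule.subset_span ⟨c', hc', rfl⟩
    · exact zero_mem _
  obtain ⟨n, hn, z, hz, e⟩ := clear_denominators _ _ h1
  refine ⟨n, hn, ?_⟩
  have : n • c = z := ι_injective (by rw [map_nsmul, ← e, ← Nat.cast_smul_eq_nsmul ℚ n])
  rw [this]
  exact hz

/-- the Chow ring of zero-cycles on the products of symmetric powers -/
abbrev ChU (k : Type) [Field k] {I : Type} (F : I → Type) [∀ i, Field (F i)]
    [∀ i, Algebra k (F i)] : Type :=
  MvPolynomial (UPt k F) ℚ ⧸ relIdealU k F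

/-- the class of a point -/
noncomputable def yU (a : UPt k F) : ChU k F := Ideal.Quotient.mk (relIdealU k F) (X a)

theorem mk_monoU (D : Multiset (UPt k F)) :
    Ideal.Quotient.mk (relIdealU k F) (mono D) = (D.map yU).prod := by
  rw [mono_eq, map_multiset_prod, Multiset.map_map]
  rfl

theorem mk_smulU (q : ℚ) (x : MvPolynomial (UPt k F) ℚ) :
    Ideal.Quotient.mk (relIdealU k F) (q • x) = q • Ideal.Quotient.mk (relIdealU k F) x := rfl

theorem eq_zero_of_nsmulU (n : ℕ) (hn : 0 < n) (x : ChU k F) (h : n • x = 0) : x = 0 := by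
  rw [← Nat.cast_smul_eq_nsmul ℚ n] at h
  rcases smul_eq_zero.1 h with h | h
  · exact absurd h (by positivity)
  · exact h

/-- the points of `C_i` as points of `C` -/
def emb (k : Type) [Field k] {I : Type} (F : I → Type) [∀ i, Field (F i)] [∀ i, Algebra k (F i)]
    (i : I) (a : Place k (F i)) : UPt k F := ⟨i, a⟩

/-- the cycles on one of the curves -/
theorem rename_mem (i : I) (x : MvPolynomial (Place k (F i)) ℚ) (hx : x ∈ relIdeal k (F i)) :
    rename (emb k F i) x ∈ relIdealU k F := by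
  have hx' : x ∈ relSpan k (F i) := hx
  show _ ∈ relSpanU k F
  clear hx
  induction hx' using Submodule.span_induction with
  | mem x hx =>
    obtain ⟨c, ⟨N, hc⟩, rfl⟩ := hx
    obtain ⟨H, _, _, T, φ, S, p, hH, hφ, hS, hp, rfl⟩ := hc
    refine Submodule.subset_span ⟨∑ v ∈ S, Finsupp.single
      (Finset.univ.val.map (fun j => (⟨i, p v j⟩ : UPt k F))) (v.ord φ), ⟨N, H, _, _,
        fun j => ⟨i, T j⟩, φ, S, fun v j => ⟨i, p v j⟩, hH, hφ, hS,
        fun v hv j => ⟨p v j, rfl, hp v hv j⟩, rfl⟩, ?_⟩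
    rw [map_sum, map_sum, map_sum]
    refine Finset.sum_congr rfl fun v _ => ?_
    rw [ι_single, ι_single, map_smul, mono_eq, mono_eq, map_multiset_prod, Multiset.map_map,
      Multiset.map_map, Multiset.map_map]
    congr 3
    funext j
    simp [emb]
  | zero => rw [map_zero]; exact zero_mem _
  | add x y _ _ hx hy => rw [map_add]; exact add_mem hx hy
  | smul q x _ hx => rw [map_smul]; exact Submodule.smul_mem _ _ hx

/-- the ring of one of the curves maps to the ring of the family -/
noncomputable def inc (F : I → Type) [∀ i, Field (F i)] [∀ i, Algebra k (F i)] (i : I) :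
    Ch k (F i) →+* ChU k F :=
  Ideal.Quotient.lift (relIdeal k (F i)) ((Ideal.Quotient.mk (relIdealU k F)).comp
    (rename (emb k F i) : _ →ₐ[ℚ] _).toRingHom) fun x hx =>
      Ideal.Quotient.eq_zero_iff_mem.2 (rename_mem i x hx)

theorem inc_y (i : I) (a : Place k (F i)) : inc F i (y a) = yU ⟨i, a⟩ := by
  show Ideal.Quotient.mk (relIdealU k F) (rename (emb k F i) (X a)) = _
  rw [rename_X]
  rfl

theorem inc_smul (i : I) (q : ℚ) (x : Ch k (F i)) : inc F i (q • x) = q • inc F i x :=
  map_rat_smul (inc F i) q x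

end Pool.Agent.LibDih3
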