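import Pool.Agent.LibDih3.IndepS

/-!
A sequence of points of the projective line with independent orbits.
-/

open scoped Classical
open Polynomial

namespace Pool.Agent.LibDih3

open Pool.Agent.LibBH2 Pool.Agent.LibQC8 Pool.Agent.LibLP34 Pool.Agent.LibK4 Pool.Agent.LibOrb34
open Pool.Agent.LibJac77 (Genus2 Pt KC DCf vp dv neg jP Pic mk Qb RatF Bdd natDegree_le_of_orbit
  D3b_x D3b_y jP_neg)

theorem y_ne_zero {f : Qb[X]} [Genus2 f] {P : Pt f} (haff : ∃ ξ η h, P = .aff ξ η h)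
    (hnt : ∀ n : ℕ, n ≠ 0 → n • jP P ≠ 0) : D3b_y P ≠ 0 := by
  obtain ⟨ξ, η, h, rfl⟩ := haff
  intro h0
  have h1 : η = 0 := h0
  subst h1
  apply hnt 2 two_ne_zero
  have h2 := jP_neg (.aff ξ 0 h : Pt f)
  have h3 : neg (.aff ξ 0 h : Pt f) = .aff ξ 0 h := by simp [neg]
  rw [h3] at h2
  rw [two_smul]
  nth_rewrite 1 [h2]
  exact neg_add_cancel _

theorem y_sq_mem {f : Qb[X]} {K : IntermediateField ℚ Qb} (hK : RatF f K) {P : Pt f}
    (haff : ∃ ξ η h, P = .aff ξ η h) (hx : D3b_x P ∈ K) : D3b_y P ^ 2 ∈ K := by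
  obtain ⟨ξ, η, h, rfl⟩ := haff
  show η ^ 2 ∈ K
  rw [h, eval_eq_sum_range]
  exact sum_mem fun n _ => mul_mem (hK n) (pow_mem hx n)

/-- points over the same point of the line -/
theorem y_eq_or {f : Qb[X]} {P P' : Pt f} (h : xo P = xo P') :
    D3b_y P' = D3b_y P ∨ D3b_y P' = - D3b_y P := by
  match P, P' with
  | .inf, .inf => left; rfl
  | .inf, .aff x y h' => exact absurd h (OnePoint.infty_ne_coe _)
  | .aff x y h', .inf => exact absurd h (OnePoint.coe_ne_infty _)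
  | .aff x y h1, .aff x' y' h2 =>
    have : x = x' := OnePoint.coe_eq_coe.1 h
    subst this
    exact sq_eq_sq_iff_eq_or_eq_neg.1 (h2.trans h1.symm)

/-- there is a number field `K` and a sequence of points of the line with coordinates in `K` such that
all points over the images of all of them are independent on every curve -/
theorem indepSeq {I J : Type} [Fintype I] [Fintype J] (f : I → Qb[X]) [∀ i, Genus2 (f i)]
    (g : I → J → GL (Fin 2) Qb) (hg : ∀ i, Function.Injective fun a => BrAt (f i) (g i a)) :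
    ∃ (K : IntermediateField ℚ Qb) (_ : FiniteDimensional ℚ K) (z : ℕ → Qb), (∀ n, z n ∈ K) ∧
      ∀ P : ℕ → ∀ i, J → Pt (f i), (∀ n, Over g (z n : OnePoint Qb) (P n)) →
        ∀ i, LinearIndependent ℤ (fun q : ℕ × J => jP (P q.1 i q.2)) := by
  obtain ⟨K, hfin, hRat, hstep⟩ := stepG f g hg
  let Good : Qb → Prop := fun z => z ∈ K ∧ ∀ P : ∀ i, J → Pt (f i),
    Over g (z : OnePoint Qb) P → ∀ i,
      (∀ a, (∃ ξ η h, P i a = .aff ξ η h) ∧ D3b_x (P i a) ∈ K ∧
        (∀ n : ℕ, n ≠ 0 → n • jP (P i a) ≠ 0)) ∧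
      ∀ a b, a ≠ b → D3b_y (P i a) * D3b_y (P i b) ∉ K
  let R : Qb → Qb → Prop := fun z' z => ∀ P' P : ∀ i, J → Pt (f i),
    Over g (z' : OnePoint Qb) P' → Over g (z : OnePoint Qb) P →
      ∀ i a b, D3b_y (P' i a) * D3b_y (P i b) ∉ K
  obtain ⟨z, hz, hR⟩ := exists_seq_of_forall_finset_exists Good R (by
    intro s hs
    let c : Qb → I → J → Qb := fun x i a =>
      if h : ∃ P : ∀ i, J → Pt (f i), Over g (x : OnePoint Qb) P then
        D3b_y (Classical.choose h i a) else 1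
    let Cs : Finset Qb := (s ×ˢ (Finset.univ : Finset (I × J))).image fun q => c q.1 q.2.1 q.2.2
    have hCs : ∀ y ∈ Cs, y ≠ 0 ∧ y ^ 2 ∈ K := by
      intro y hy
      rw [Finset.mem_image] at hy
      obtain ⟨⟨x, i, a⟩, hx, rfl⟩ := hy
      have hxs : x ∈ s := (Finset.mem_product.1 hx).1
      by_cases h : ∃ P : ∀ i, J → Pt (f i), Over g (x : OnePoint Qb) P
      · have h1 := (hs x hxs).2 _ (Classical.choose_spec h) i
        have h2 := h1.1 a
        have h3 : c x i a = D3b_y (Classical.choose h i a) := dif_pos h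
        show c x i a ≠ 0 ∧ c x i a ^ 2 ∈ K
        rw [h3]
        exact ⟨y_ne_zero h2.1 h2.2.2, y_sq_mem (hRat i) h2.1 h2.2.1⟩
      · have h3 : c x i a = 1 := dif_neg h
        show c x i a ≠ 0 ∧ c x i a ^ 2 ∈ K
        rw [h3]
        exact ⟨one_ne_zero, by rw [one_pow]; exact one_mem K⟩
    obtain ⟨y, hyK, -, hy⟩ := hstep ∅ Cs hCs
    refine ⟨y, ⟨hyK, fun P hP i => ⟨fun a => ?_, (hy P hP i).2⟩⟩, ?_⟩
    · obtain ⟨h1, h2, h3, -⟩ := (hy P hP i).1 a
      exact ⟨h1, h2, h3⟩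
    · intro x hx P' P hP' hP i a b hmem
      have h : ∃ P : ∀ i, J → Pt (f i), Over g (x : OnePoint Qb) P := ⟨P', hP'⟩
      have h3 : c x i a = D3b_y (Classical.choose h i a) := dif_pos h
      have h4 : c x i a ∈ Cs := Finset.mem_image.2 ⟨(x, i, a), Finset.mem_product.2
        ⟨hx, Finset.mem_univ _⟩, rfl⟩
      have h5 := ((hy P hP i).1 b).2.2.2 _ h4
      rw [h3] at h5
      have h6 : xo (Classical.choose h i a) = xo (P' i a) :=
        (Classical.choose_spec h i a).trans (hP' i a).symm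
      rcases y_eq_or h6 with h7 | h7
      · rw [h7] at hmem
        exact h5 hmem
      · rw [h7, neg_mul] at hmem
        exact h5 (neg_mem_iff.1 hmem))
  refine ⟨K, hfin, z, fun n => (hz n).1, fun P hP i => ?_⟩
  rw [linearIndependent_iff_finset_linearIndependent]
  intro s
  have hpt : ∀ q : s, ∃ h : D3b_y (P q.1.1 i q.1.2) ^ 2 = (f i).eval (D3b_x (P q.1.1 i q.1.2)),
      P q.1.1 i q.1.2 = .aff (D3b_x (P q.1.1 i q.1.2)) (D3b_y (P q.1.1 i q.1.2)) h := by
    intro q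
    obtain ⟨⟨ξ, η, h, hq⟩, -, -⟩ := ((hz q.1.1).2 (P q.1.1) (hP _) i).1 q.1.2
    rw [hq]
    exact ⟨h, rfl⟩
  choose hpt1 hpt2 using hpt
  refine indep_fintype (f i) K (hRat i) (fun q : s => P q.1.1 i q.1.2)
    (fun q => D3b_x (P q.1.1 i q.1.2)) (fun q => D3b_y (P q.1.1 i q.1.2)) hpt1 hpt2 ?_ ?_ ?_
  · intro q
    exact (((hz q.1.1).2 (P q.1.1) (hP _) i).1 q.1.2).2.1
  · rintro ⟨⟨n, a⟩, hq⟩ ⟨⟨m, b⟩, hq'⟩ hne
    show D3b_y (P n i a) * D3b_y (P m i b) ∉ K
    rcases lt_trichotomy n m with h | h | h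
    · exact hR n m h (P n) (P m) (hP n) (hP m) i a b
    · subst h
      refine ((hz n).2 (P n) (hP _) i).2 a b ?_
      rintro rfl
      exact hne rfl
    · rw [mul_comm]
      exact hR m n h (P m) (P n) (hP m) (hP n) i b a
  · intro q
    exact (((hz q.1.1).2 (P q.1.1) (hP _) i).1 q.1.2).2.2

end Pool.Agent.LibDih3
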