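import Pool.Agent.LibDih3.Mob
import Pool.Agent.LibOrb34.R6a
import Pool.Agent.LibOrb34.R8

/-!
The Klein four groups of a curve of genus two.
-/

open scoped Classical
open Polynomial

namespace Pool.Agent.LibDih3

open Pool.Agent.LibJac77 (Genus2)
open Pool.Agent.LibOrb34

variable {k : Type} [Field k]

/-- The curve `y ^ 2 = f(x)` has no reduced involution: no projective map of order two preserves the
six branch points. -/
def NoInvolution (f : k[X]) : Prop :=
  ∀ g : GL (Fin 2) k, BrAt f g = BrAt f 1 → (∀ z : OnePoint k, g • g • z = z) →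
    ∀ z : OnePoint k, g • z = z

/-- the involution exchanging `a` and infinity, `b` and `c` -/
noncomputable def inv3 (a b c : k) (h : (b - a) * (c - a) ≠ 0) : GL (Fin 2) k :=
  gl a ((b - a) * (c - a) - a ^ 2) 1 (-a) (by
    intro h0
    apply h
    linear_combination -h0)

theorem inv3_infty (a b c : k) (h : (b - a) * (c - a) ≠ 0) :
    mob (inv3 a b c h) OnePoint.infty = (a : OnePoint k) := by
  rw [inv3, gl_infty, if_neg one_ne_zero, div_one]

theorem inv3_a (a b c : k) (h : (b - a) * (c - a) ≠ 0) :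
    mob (inv3 a b c h) (a : OnePoint k) = OnePoint.infty := by
  rw [inv3, gl_coe, if_pos (by ring)]

theorem inv3_b (a b c : k) (h : (b - a) * (c - a) ≠ 0) :
    mob (inv3 a b c h) (b : OnePoint k) = (c : OnePoint k) := by
  have h1 : b - a ≠ 0 := left_ne_zero_of_mul h
  have h2 : 1 * b + -a ≠ 0 := by
    intro h0
    apply h1
    linear_combination h0
  rw [inv3, gl_coe, if_neg h2, coe_inj', div_eq_iff h2]
  ring

theorem inv3_c (a b c : k) (h : (b - a) * (c - a) ≠ 0) :
    mob (inv3 a b c h) (c : OnePoint k) = (b : OnePoint k) := by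
  have h1 : c - a ≠ 0 := right_ne_zero_of_mul h
  have h2 : 1 * c + -a ≠ 0 := by
    intro h0
    apply h1
    linear_combination h0
  rw [inv3, gl_coe, if_neg h2, coe_inj', div_eq_iff h2]
  ring

/-- the four points -/
noncomputable def p4 (a b c : k) : Fin 4 → OnePoint k
  | 0 => OnePoint.infty
  | 1 => (a : OnePoint k)
  | 2 => (b : OnePoint k)
  | 3 => (c : OnePoint k)

/-- the group law of the Klein four group -/
def xr : Fin 4 → Fin 4 → Fin 4 :=
  ![![0, 1, 2, 3], ![1, 0, 3, 2], ![2, 3, 0, 1], ![3, 2, 1, 0]]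

theorem exists_klein_maps {a b c : k} (hab : a ≠ b) (hac : a ≠ c) (hbc : b ≠ c) :
    ∃ g : Fin 4 → GL (Fin 2) k, g 0 = 1 ∧ ∀ i j, mob (g i) (p4 a b c j) = p4 a b c (xr i j) := by
  have h1 : (b - a) * (c - a) ≠ 0 := mul_ne_zero (sub_ne_zero.2 hab.symm) (sub_ne_zero.2 hac.symm)
  have h2 : (a - b) * (c - b) ≠ 0 := mul_ne_zero (sub_ne_zero.2 hab) (sub_ne_zero.2 hbc.symm)
  have h3 : (a - c) * (b - c) ≠ 0 := mul_ne_zero (sub_ne_zero.2 hac) (sub_ne_zero.2 hbc)
  refine ⟨![1, inv3 a b c h1, inv3 b a c h2, inv3 c a b h3], rfl, ?_⟩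
  intro i j
  fin_cases i
  · fin_cases j <;> exact mob_one _
  · fin_cases j
    · exact inv3_infty _ _ _ h1
    · exact inv3_a _ _ _ h1
    · exact inv3_b _ _ _ h1
    · exact inv3_c _ _ _ h1
  · fin_cases j
    · exact inv3_infty _ _ _ h2
    · exact inv3_b _ _ _ h2
    · exact inv3_a _ _ _ h2
    · exact inv3_c _ _ _ h2
  · fin_cases j
    · exact inv3_infty _ _ _ h3
    · exact inv3_b _ _ _ h3
    · exact inv3_c _ _ _ h3
    · exact inv3_a _ _ _ h3

theorem p4_injective {a b c : k} (hab : a ≠ b) (hac : a ≠ c) (hbc : b ≠ c) :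
    Function.Injective (p4 a b c) := by
  intro i j h
  fin_cases i <;> fin_cases j <;>
    first
    | rfl
    | exact absurd h.symm (OnePoint.coe_ne_infty _)
    | exact absurd h (OnePoint.coe_ne_infty _)
    | exact absurd (coe_inj'.1 h) hab
    | exact absurd (coe_inj'.1 h) hac
    | exact absurd (coe_inj'.1 h) hbc
    | exact absurd (coe_inj'.1 h).symm hab
    | exact absurd (coe_inj'.1 h).symm hac
    | exact absurd (coe_inj'.1 h).symm hbc

/-- a projective map fixing infinity and two other points is the identity -/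
theorem fix3 {g : GL (Fin 2) k} {a b : k} (hab : a ≠ b) (h0 : mob g OnePoint.infty = OnePoint.infty)
    (ha : mob g (a : OnePoint k) = (a : OnePoint k)) (hb : mob g (b : OnePoint k) = (b : OnePoint k))
    (z : OnePoint k) : mob g z = z := by
  rw [mob_infty] at h0
  have hc : g 1 0 = 0 := by
    by_contra h
    rw [if_neg h] at h0
    exact OnePoint.coe_ne_infty _ h0
  have hd : g 1 1 ≠ 0 := by
    intro h
    have := g.det_ne_zero
    rw [Matrix.det_fin_two, hc, h] at this
    exact this (by ring)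
  have key : ∀ x : k, mob g (x : OnePoint k) = (((g 0 0 * x + g 0 1) / g 1 1 : k) : OnePoint k) := by
    intro x
    rw [mob_coe, hc, if_neg (by rw [zero_mul, zero_add]; exact hd), zero_mul, zero_add]
  rw [key, coe_inj', div_eq_iff hd] at ha hb
  have h1 : (g 0 0 - g 1 1) * (a - b) = 0 := by linear_combination ha - hb
  have h2 : g 0 0 = g 1 1 := sub_eq_zero.1 ((mul_eq_zero.1 h1).resolve_right (sub_ne_zero.2 hab))
  have h3 : g 0 1 = 0 := by rw [h2] at ha; linear_combination ha
  by_cases hz : z = OnePoint.infty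
  · subst hz
    rw [mob_infty, if_pos hc]
  · obtain ⟨x, rfl⟩ := exists_coe hz
    rw [key, coe_inj', h2, h3, add_zero, mul_comm, mul_div_assoc, div_self hd, mul_one]

theorem mem_BrAt {f : k[X]} {g : GL (Fin 2) k} {z : OnePoint k} : z ∈ BrAt f g ↔ mob g z ∈ Br f :=
  Iff.rfl

variable [CharZero k] [IsAlgClosed k]

theorem five_le (f : k[X]) [Genus2 f] (g : GL (Fin 2) k) : 5 ≤ (BrAt f g ∩ BrAt f g).ncard := by
  obtain ⟨e, he, hf⟩ := exists_roots f
  rw [Set.inter_self]
  have h1 : (fun i => mob g⁻¹ ((e i : k) : OnePoint k)) '' Set.univ ⊆ BrAt f g := by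
    rintro _ ⟨i, _, rfl⟩
    rw [mem_BrAt, mob_mob_inv, mem_Br_coe, eval_of_prod hf]
    exact Finset.prod_eq_zero (Finset.mem_univ i) (sub_self _)
  have hfin : (BrAt f g).Finite := (finite_Br f).preimage (mob_injective g).injOn
  refine le_trans ?_ (Set.ncard_le_ncard h1 hfin)
  rw [Set.ncard_image_of_injective _ (fun i j h => he (coe_inj'.1 (mob_injective _ h))),
    Set.ncard_univ, Nat.card_eq_fintype_card, Fintype.card_fin]

/-- every curve of genus two without reduced involution has Klein four groups -/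
theorem exists_klein (f : k[X]) [Genus2 f] (hf : NoInvolution f) :
    ∃ g : Unit → Fin 4 → GL (Fin 2) k, g () 0 = 1 ∧ Related (fun _ => f) g ∧
      ∀ i, Function.Injective fun a => BrAt f (g i a) := by
  obtain ⟨e, he, hfe⟩ := exists_roots f
  have h01 : e 0 ≠ e 1 := fun h => absurd (he h) (by decide)
  have h02 : e 0 ≠ e 2 := fun h => absurd (he h) (by decide)
  have h12 : e 1 ≠ e 2 := fun h => absurd (he h) (by decide)
  obtain ⟨g, hg0, hg⟩ := exists_klein_maps h01 h02 h12
  have hp := p4_injective h01 h02 h12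
  have hB : ∀ j, p4 (e 0) (e 1) (e 2) j ∈ Br f := by
    intro j
    have h : ∀ i, ((e i : k) : OnePoint k) ∈ Br f := fun i => by
      rw [mem_Br_coe, eval_of_prod hfe]
      exact Finset.prod_eq_zero (Finset.mem_univ i) (sub_self _)
    fin_cases j
    · exact mem_Br_infty f
    · exact h 0
    · exact h 1
    · exact h 2
  have hBr : ∀ i j, p4 (e 0) (e 1) (e 2) j ∈ BrAt f (g i) := fun i j => by
    rw [mem_BrAt, hg]; exact hB _
  refine ⟨fun _ => g, hg0, ?_, ?_⟩
  · intro i i' a a'
    by_cases haa : a = a'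
    · subst haa
      exact Or.inl (five_le f (g a))
    · right
      refine ⟨rfl, ?_⟩
      -- the third involution
      have hx : ∀ a a' : Fin 4, a ≠ a' → ∃ m n : Fin 4, [0, xr a a', m, n].Nodup ∧
          xr a' 0 = xr a (xr a a') ∧ xr a' (xr a a') = xr a 0 ∧ xr a' m = xr a n ∧
          xr a' n = xr a m := by decide
      obtain ⟨m, n, hnd, e1, e2, e3, e4⟩ := hx a a' haa
      refine ⟨p4 (e 0) (e 1) (e 2) 0, p4 (e 0) (e 1) (e 2) (xr a a'), p4 (e 0) (e 1) (e 2) m,
        p4 (e 0) (e 1) (e 2) n, ?_, hBr _ _, hBr _ _, hBr _ _, hBr _ _, ?_, ?_, ?_, ?_⟩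
      · exact hnd.map hp
      · exact (hg a' 0).trans ((congrArg _ e1).trans (hg a (xr a a')).symm)
      · exact (hg a' (xr a a')).trans ((congrArg _ e2).trans (hg a 0).symm)
      · exact (hg a' m).trans ((congrArg _ e3).trans (hg a n).symm)
      · exact (hg a' n).trans ((congrArg _ e4).trans (hg a m).symm)
  · intro i a b hab
    by_contra hne
    have hab' : BrAt f (g a) = BrAt f (g b) := hab
    set t : GL (Fin 2) k := g b * (g a)⁻¹ with ht
    have hinv : ∀ i j, mob (g i)⁻¹ (p4 (e 0) (e 1) (e 2) j) = p4 (e 0) (e 1) (e 2) (xr i j) := by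
      intro i j
      have hxx : xr i (xr i j) = j := by revert i j; decide
      have := hg i (xr i j)
      rw [hxx] at this
      rw [← this, mob_inv_mob]
    have htp : ∀ j, mob t (p4 (e 0) (e 1) (e 2) j) = p4 (e 0) (e 1) (e 2) (xr b (xr a j)) := by
      intro j
      rw [ht, mob_mul, hinv, hg]
    have htt : ∀ j, mob (t * t) (p4 (e 0) (e 1) (e 2) j) = p4 (e 0) (e 1) (e 2) j := by
      intro j
      have hxx : xr b (xr a (xr b (xr a j))) = j := by
        have : ∀ a b j : Fin 4, xr b (xr a (xr b (xr a j))) = j := by decide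
        exact this a b j
      rw [mob_mul, htp, htp, hxx]
    have hid : ∀ z, mob (t * t) z = z := fun z => fix3 h01 (htt 0) (htt 1) (htt 2) z
    have h1 : BrAt f t = BrAt f 1 := by
      ext z
      rw [mem_BrAt, mem_BrAt, mob_one, ht, mob_mul]
      have h2 : mob (g a)⁻¹ z ∈ BrAt f (g b) ↔ mob (g a)⁻¹ z ∈ BrAt f (g a) := by rw [hab']
      rw [mem_BrAt, mem_BrAt, mob_mob_inv] at h2
      exact h2
    have h3 := hf t h1 (fun z => by
      have := hid z
      rw [mob_mul] at this
      exact this) (p4 (e 0) (e 1) (e 2) 0)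
    have h4 : p4 (e 0) (e 1) (e 2) (xr b (xr a 0)) = p4 (e 0) (e 1) (e 2) 0 := (htp 0).symm.trans h3
    have h5 := hp h4
    have h6 : ∀ a b : Fin 4, xr b (xr a 0) = 0 → a = b := by decide
    exact hne (h6 a b h5)

end Pool.Agent.LibDih3
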