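import Pool.Agent.LibDih3.Mob
import Pool.Agent.LibOrb34.Transfer

/-!
The pair lemma for projective maps exchanging two pairs of branch points.
-/

open scoped Classical
open Polynomial

namespace Pool.Agent.LibDih3

open Pool.Agent.LibBH2 Pool.Agent.LibQC8 Pool.Agent.LibLP34 Pool.Agent.LibK4
open Pool.Agent.LibJac77 (Genus2 Pt KC DCf vp dv neg jP Pic mk)

variable {k : Type} [Field k] [CharZero k] [IsAlgClosed k] {f : k[X]} [Genus2 f]

theorem over_vp {P : Pt f} {z : OnePoint k} (h : xo P = z) : Pool.Agent.LibOrb34.Over (vp P) z := by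
  have hsp := Pool.Agent.LibJac77.sp_vp P
  subst h
  match P, hsp with
  | .inf, hsp => exact Or.inl ⟨rfl, hsp⟩
  | .aff x y h, hsp => exact Or.inr ⟨x, rfl, hsp.1⟩

/-- if `g' g⁻¹` exchanges two pairs of branch points then the points over `g z` and `g' z` are
orthogonal -/
theorem pairK {g g' : GL (Fin 2) k} (h : Swap f g g') (z : OnePoint k) {P Q : Pt f}
    (hP : xo P = g • z) (hQ : xo Q = g' • z) :
    vv (ww f) (vp P) * vv (ww f) (vp Q) = 0 := by
  obtain ⟨a, b, c, d, hnd, ha, hb, hc, hd, h1, h2, h3, -⟩ := h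
  have hinj : ∀ x y : OnePoint k, x ≠ y → g • x ≠ g • y := fun x y hxy h =>
    hxy (MulAction.injective g h)
  simp only [List.nodup_cons, List.mem_cons, List.not_mem_nil, or_false, not_or] at hnd
  have hs : ∀ x : OnePoint k, Pool.Agent.LibOrb34.mob (g' * g⁻¹) (g • x) = g' • x := by
    intro x
    show (g' * g⁻¹) • g • x = g' • x
    rw [mul_smul, inv_smul_smul]
  refine Pool.Agent.LibOrb34.swap_pair (g' * g⁻¹) (a := g • a) (b := g • b) (c := g • c)
    (d := g • d) ha hb hc hd (hinj _ _ hnd.1.1) (hinj _ _ hnd.1.2.1) (hinj _ _ hnd.1.2.2)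
    (hinj _ _ hnd.2.1.1) (hinj _ _ hnd.2.1.2) (hinj _ _ hnd.2.2.1) ?_ ?_ ?_ (vp P) (vp Q) (g • z)
    (over_vp hP) ?_
  · rw [hs, h1]
  · rw [hs, h2]
  · rw [hs, h3]
  · rw [hs]
    exact over_vp hQ

end Pool.Agent.LibDih3
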