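import Pool.Agent.LibDih3.Mob
import Pool.Agent.LibOrb34.Defs

/-!
The statements on the groups generated by points over related points of the projective line.
-/

open scoped Classical
open Polynomial

namespace Pool.Agent.LibDih3

open Pool.Agent.LibBH2 Pool.Agent.LibQC8 Pool.Agent.LibLP34
open Pool.Agent.LibJac77 (Genus2 KC Qb)


/-- The point `P i a` of the curve `C_i : y ^ 2 = f_i(x)` lies over the point `g i a z` of the
projective line, for all `i` and `a`. -/
def Above {I J : Type} (f : I → Qb[X]) [∀ i, Genus2 (f i)] (g : I → J → GL (Fin 2) Qb)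
    (z : OnePoint Qb) (P : ∀ i, J → Place Qb (KC (f i))) : Prop :=
  ∀ i a, Pool.Agent.LibOrb34.Over (P i a) (g i a • z)

/-- For every point `z` of the projective line and all points `P i a` of `C_i` over `g i a z`: every
zero-cycle of degree `0` with torsion sum supported on a translate of `∏ M_i`, on any product
`∏ C_i^(N_i)` of symmetric powers, is torsion; here `M_i` is the saturation of the group generated by
the classes of the divisors `P i a - w i`. -/
def TorsionAbove {I J : Type} [Fintype I] (f : I → Qb[X]) [∀ i, Genus2 (f i)]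
    (w : ∀ i, Place Qb (KC (f i))) (g : I → J → GL (Fin 2) Qb) : Prop :=
  ∀ (z : OnePoint Qb) (P : ∀ i, J → Place Qb (KC (f i))), Above f g z P →
    TorsionOnU w fun i => (sat (Set.range fun a => cl (w i) {P i a}) : Set (Pic0 Qb (KC (f i))))

/-- There are a number field `K` and points `z 0, z 1, ...` of the line with coordinates in `K` such
that for all points `P n i a` of `C_i` over `g i a (z n)` and every `i` the classes of the divisors
`P n i a - w i` (all `n` and `a`) are linearly independent over the integers. -/
def IndependentAbove {I J : Type} (f : I → Qb[X]) [∀ i, Genus2 (f i)]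
    (w : ∀ i, Place Qb (KC (f i))) (g : I → J → GL (Fin 2) Qb) : Prop :=
  ∃ (K : IntermediateField ℚ Qb) (_ : FiniteDimensional ℚ K) (z : ℕ → Qb), (∀ n, z n ∈ K) ∧
    ∀ P : ℕ → ∀ i, J → Place Qb (KC (f i)), (∀ n, Above f g (z n : OnePoint Qb) (P n)) →
      ∀ i, LinearIndependent ℤ (fun q : ℕ × J => cl (w i) {P q.1 i q.2})

/-- For every `i` the six-point sets `(g i a)⁻¹ B_i` are distinct. -/
def DistinctSets {k I J : Type} [Field k] (f : I → k[X]) (g : I → J → GL (Fin 2) k) : Prop :=
  ∀ i, Function.Injective fun a => BrAt (f i) (g i a)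

/-- The points `w i` are the points at infinity of the curves `C_i`. -/
def AtInfinity {I : Type} (f : I → Qb[X]) [∀ i, Genus2 (f i)]
    (w : ∀ i, Place Qb (KC (f i))) : Prop :=
  ∀ i, Pool.Agent.LibOrb34.Over (w i) OnePoint.infty

end Pool.Agent.LibDih3
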