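import Pool.Agent.LibDih3.Pair5F
import Pool.Agent.LibDih3.PairK
import Pool.Agent.LibDih3.Clique
import Pool.Agent.LibDih3.IndepSeq
import Pool.Agent.LibDih3.Klein
import Pool.Agent.LibDih3.Dih
import Pool.Agent.LibDih3.Stmt

/-!
The main theorem.
-/

open scoped Classical
open Polynomial

namespace Pool.Agent.LibDih3

open Pool.Agent.LibBH2 Pool.Agent.LibQC8 Pool.Agent.LibLP34
open Pool.Agent.LibJac77 (Genus2 Pt KC DCf vp dv neg jP Pic mk Qb)

section

variable {k : Type} [Field k] [CharZero k] [IsAlgClosed k] {I : Type} {f : I → k[X]}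
  [∀ i, Genus2 (f i)]

theorem over_vp' {f : k[X]} [Genus2 f] (P : Pt f) : Pool.Agent.LibOrb34.Over (vp P) (xo P) := by
  have hsp := Pool.Agent.LibJac77.sp_vp P
  match P, hsp with
  | .inf, hsp => exact Or.inl ⟨rfl, hsp⟩
  | .aff x y h, hsp => exact Or.inr ⟨x, rfl, hsp.1⟩

theorem xo_of_over {f : k[X]} [Genus2 f] {P : Pt f} {z : OnePoint k}
    (h : Pool.Agent.LibOrb34.Over (vp P) z) : xo P = z :=
  Pool.Agent.LibOrb34.over_unique (over_vp' P) h

theorem eq_inf {f : k[X]} [Genus2 f] {w : Place k (KC f)}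
    (h : Pool.Agent.LibOrb34.Over w OnePoint.infty) : w = ww f := by
  obtain ⟨P, rfl⟩ := Pool.Agent.LibJac77.exists_eq_vp w
  have h1 := xo_of_over h
  match P with
  | .inf => rfl
  | .aff x y h => exact absurd h1 (OnePoint.coe_ne_infty _)

/-- all products of the classes of the points vanish -/
theorem related_zero {I J : Type} {f : I → k[X]} [∀ i, Genus2 (f i)] {g : I → J → GL (Fin 2) k}
    (hg : Related f g) (z : OnePoint k) (P : ∀ i, J → Pt (f i))
    (hP : ∀ i a, xo (P i a) = g i a • z) :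
    (∀ i a b, vv (ww (f i)) (vp (P i a)) * vv (ww (f i)) (vp (P i b)) = 0) ∧
    ∀ i i' a b, i ≠ i' → vU (F := fun i => KC (f i)) (wU f) i (vp (P i a)) *
      vU (F := fun i => KC (f i)) (wU f) i' (vp (P i' b)) = 0 := by
  constructor
  · intro i a b
    rcases hg i i a b with h | ⟨-, h⟩
    · rcases pair5 h z (hP i a) (hP i b) with h1 | h1 | h1
      · rw [vv_of_neg h1, zero_mul]
      · rw [vv_of_neg h1, mul_zero]
      · exact pair_of_data h1
    · exact pairK h z (hP i a) (hP i b)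
  · intro i i' a b hne
    rcases hg i i' a b with h | ⟨h, -⟩
    · rcases pair5 h z (hP i a) (hP i' b) with h1 | h1 | h1
      · rw [vU_of_neg i h1, zero_mul]
      · rw [vU_of_neg i' h1, mul_zero]
      · exact pairU_of_data h1
    · exact absurd h hne

end

/-- the isotropy theorem -/
theorem torsion_part {I J : Type} [Fintype I] [Fintype J] (f : I → Qb[X]) [∀ i, Genus2 (f i)]
    (w : ∀ i, Place Qb (KC (f i))) (hw : ∀ i, Pool.Agent.LibOrb34.Over (w i) OnePoint.infty)
    (g : I → J → GL (Fin 2) Qb) (hg : Related f g) (z : OnePoint Qb)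
    (P : ∀ i, J → Place Qb (KC (f i)))
    (hP : ∀ i a, Pool.Agent.LibOrb34.Over (P i a) (g i a • z)) :
    TorsionOnU w fun i => (sat (Set.range fun a => cl (w i) {P i a}) :
      Set (Pic0 Qb (KC (f i)))) := by
  have hw' : w = wU f := funext fun i => eq_inf (hw i)
  subst hw'
  have h1 := fun i a => Pool.Agent.LibJac77.exists_eq_vp (P i a)
  choose R hR using h1
  have h2 : P = fun i a => vp (R i a) := by
    funext i a
    exact hR i a
  subst h2
  obtain ⟨h3, h4⟩ := related_zero hg z R (fun i a => xo_of_over (hP i a))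
  exact cliqueU (F := fun i => KC (f i)) (fun i => isFunctionField (f i)) (wU f)
    (fun i a => vp (R i a)) h3 h4

/-- the independence theorem -/
theorem indep_part {I J : Type} [Fintype I] [Fintype J] (f : I → Qb[X]) [∀ i, Genus2 (f i)]
    (w : ∀ i, Place Qb (KC (f i))) (hw : ∀ i, Pool.Agent.LibOrb34.Over (w i) OnePoint.infty)
    (g : I → J → GL (Fin 2) Qb) (hg : ∀ i, Function.Injective fun a => BrAt (f i) (g i a)) :
    ∃ (K : IntermediateField ℚ Qb) (_ : FiniteDimensional ℚ K) (z : ℕ → Qb), (∀ n, z n ∈ K) ∧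
      ∀ P : ℕ → ∀ i, J → Place Qb (KC (f i)),
        (∀ n i a, Pool.Agent.LibOrb34.Over (P n i a) (g i a • (z n : OnePoint Qb))) →
        ∀ i, LinearIndependent ℤ (fun q : ℕ × J => cl (w i) {P q.1 i q.2}) := by
  have hw' : w = wU f := funext fun i => eq_inf (hw i)
  subst hw'
  obtain ⟨K, hK, z, hz, h⟩ := indepSeq f g hg
  refine ⟨K, hK, z, hz, fun P hP i => ?_⟩
  have h1 := fun n i a => Pool.Agent.LibJac77.exists_eq_vp (P n i a)
  choose R hR using h1
  have h2 := h R (fun n i a => xo_of_over (hR n i a ▸ hP n i a)) i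
  have h3 := indep_ψ (fun q : ℕ × J => jP (R q.1 i q.2)) (fun q => jP_mem _) h2
  have h4 : (fun q : ℕ × J => cl (wU f i) {P q.1 i q.2}) =
      fun q : ℕ × J => ψ (f i) (jP (R q.1 i q.2)) := by
    funext q
    rw [ψ_jP, ← hR]
    rfl
  rw [h4]
  exact h3

end Pool.Agent.LibDih3
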