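import Pool.Agent.LibDih3.Mob
import Pool.Agent.LibK4.B1
import Pool.Agent.LibK4.B2
import Pool.Agent.LibK4.B3
import Pool.Agent.LibOrb34.R6

/-!
Independence of the points over the images of general points.
-/

open scoped Classical
open Polynomial

namespace Pool.Agent.LibDih3

open Pool.Agent.LibBH2 Pool.Agent.LibQC8 Pool.Agent.LibLP34 Pool.Agent.LibK4 Pool.Agent.LibOrb34
open Pool.Agent.LibJac77 (Genus2 Pt KC DCf vp dv neg jP Pic mk Qb RatF Bdd natDegree_le_of_orbit
  D3b_x D3b_y)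

/-- number of variables of a finite type -/
theorem indep_fintype {J : Type} [Fintype J] (f : Qb[X]) [Genus2 f] (K : IntermediateField ℚ Qb)
    [FiniteDimensional ℚ K] (hK : RatF f K) (P : J → Pt f) (x y : J → Qb)
    (h : ∀ i, y i ^ 2 = f.eval (x i)) (hP : ∀ i, P i = .aff (x i) (y i) (h i))
    (hx : ∀ i, x i ∈ K) (hns : ∀ i j, i ≠ j → y i * y j ∉ K)
    (hnt : ∀ i, ∀ n : ℕ, n ≠ 0 → n • jP (P i) ≠ 0) :
    LinearIndependent ℤ (fun i => jP (P i)) := by
  let E := Fintype.equivFin J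
  have h1 := indep_of_nonsquare f K hK (fun i => P (E.symm i)) (fun i => x (E.symm i))
    (fun i => y (E.symm i)) (fun i => h _) (fun i => hP _) (fun i => hx _)
    (fun i j hij => hns _ _ fun h => hij (E.symm.injective h)) (fun i => hnt _)
  have h2 := h1.comp E E.injective
  have h3 : (fun i => jP (P (E.symm i))) ∘ E = fun i => jP (P i) := by
    funext i
    simp
  rwa [h3] at h2

/-- the choice of one point -/
theorem stepG {I J : Type} [Fintype I] [Fintype J] (f : I → Qb[X]) [∀ i, Genus2 (f i)]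
    (g : I → J → GL (Fin 2) Qb) (hg : ∀ i, Function.Injective fun a => BrAt (f i) (g i a)) :
    ∃ (K : IntermediateField ℚ Qb) (_ : FiniteDimensional ℚ K), (∀ i, RatF (f i) K) ∧
      ∀ S Cs : Finset Qb, (∀ c ∈ Cs, c ≠ 0 ∧ c ^ 2 ∈ K) → ∃ z : Qb, z ∈ K ∧ z ∉ S ∧
        ∀ P : ∀ i, J → Pt (f i), Over g (z : OnePoint Qb) P → ∀ i,
          (∀ a, (∃ ξ η h, P i a = .aff ξ η h) ∧ D3b_x (P i a) ∈ K ∧
            (∀ n : ℕ, n ≠ 0 → n • jP (P i a) ≠ 0) ∧ ∀ c ∈ Cs, c * D3b_y (P i a) ∉ K) ∧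
          ∀ a b, a ≠ b → D3b_y (P i a) * D3b_y (P i b) ∉ K := by
  have hroots := fun i => exists_roots (f i)
  choose e he hf using hroots
  -- the number field
  let gens : (I × Fin 5) ⊕ (I × J × Fin 2 × Fin 2) → Qb :=
    Sum.elim (fun q => e q.1 q.2) (fun q => g q.1 q.2.1 q.2.2.1 q.2.2.2)
  set K : IntermediateField ℚ Qb := IntermediateField.adjoin ℚ (Set.range gens) with hK
  have hfin : FiniteDimensional ℚ K := by
    apply IntermediateField.finiteDimensional_adjoin
    intro z _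
    exact ((AlgebraicClosure.isAlgebraic ℚ).isAlgebraic z).isIntegral
  have heK : ∀ i j, e i j ∈ K := fun i j =>
    IntermediateField.subset_adjoin _ _ ⟨Sum.inl (i, j), rfl⟩
  have hsK : ∀ i j a b, g i j a b ∈ K := fun i j a b =>
    IntermediateField.subset_adjoin _ _ ⟨Sum.inr (i, j, a, b), rfl⟩
  let eK : I → Fin 5 → K := fun i j => ⟨e i j, heK i j⟩
  let sK : I → J → Fin 2 → Fin 2 → K := fun i j a b => ⟨g i j a b, hsK i j a b⟩
  have hRat : ∀ i, RatF (f i) K := by
    intro i n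
    have h1 : f i = (∏ j, (X - C (eK i j)) : K[X]).map (algebraMap K Qb) := by
      rw [Polynomial.map_prod]
      conv_lhs => rw [hf i]
      refine Finset.prod_congr rfl fun i _ => ?_
      rw [Polynomial.map_sub, map_X, map_C]
      rfl
    rw [h1, coeff_map]
    exact (_ : K).2
  have : NumberField K := by
    refine @NumberField.mk K _ inferInstance ?_
    convert hfin
  -- the linear forms over `K`
  let LK : I → J → Option (Fin 5) → K × K := fun i j =>
    lc (sK i j 0 0) (sK i j 0 1) (sK i j 1 0) (sK i j 1 1) (eK i)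
  let L : I → J → Option (Fin 5) → Qb × Qb := fun i j =>
    lc (g i j 0 0) (g i j 0 1) (g i j 1 0) (g i j 1 1) (e i)
  have hL : ∀ i j m, L i j m = (((LK i j m).1 : Qb), ((LK i j m).2 : Qb)) := by
    intro i j m
    rcases m with _ | j <;> rfl
  have hroot : ∀ i a b, a ≠ b → ∃ (ρ : K) (q : K[X]), q.eval ρ ≠ 0 ∧ ∀ x, (x - ρ) * q.eval x =
      (∏ m, (lf (LK i a m)).eval x) * ∏ m, (lf (LK i b m)).eval x := by
    intro i
    have key : ∀ a b, (∃ x : Qb, mob (g i a) (x : OnePoint Qb) ∈ Br (f i) ∧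
        mob (g i b) (x : OnePoint Qb) ∉ Br (f i)) → ∃ (ρ : K) (q : K[X]), q.eval ρ ≠ 0 ∧
        ∀ x, (x - ρ) * q.eval x =
          (∏ m, (lf (LK i a m)).eval x) * ∏ m, (lf (LK i b m)).eval x := by
      rintro a b ⟨x, h1, h2⟩
      obtain ⟨m₀, hm₀⟩ := (mem_Br_iff_pt (hf i) _).1 h1
      have h3 := lc_fst_ne (g i a) (e i) m₀ hm₀
      have h4 := (lc_zero_iff (g i a) (e i) m₀ x).2 hm₀
      have h3' : (LK i a m₀).1 ≠ 0 := by
        intro h
        apply h3
        show (L i a m₀).1 = 0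
        rw [hL, h]
        rfl
      have hxK : x = ((-(LK i a m₀).2 / (LK i a m₀).1 : K) : Qb) := by
        have h5 : ((LK i a m₀).1 : Qb) * x + (LK i a m₀).2 = 0 := by
          have : (L i a m₀).1 * x + (L i a m₀).2 = 0 := h4
          rw [hL] at this
          exact this
        have h6 : ((LK i a m₀).1 : Qb) ≠ 0 := by
          intro h
          exact h3' (Subtype.ext h)
        have h7 : ((-(LK i a m₀).2 / (LK i a m₀).1 : K) : Qb) =
            -((LK i a m₀).2 : Qb) / ((LK i a m₀).1 : Qb) := by push_cast; rfl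
        rw [h7, eq_div_iff h6]
        linear_combination h5
      set ρ : K := -(LK i a m₀).2 / (LK i a m₀).1 with hρ
      have hval : ∀ a m, (((LK i a m).1 * ρ + (LK i a m).2 : K) : Qb) =
          (L i a m).1 * x + (L i a m).2 := by
        intro a m
        rw [hL, hxK]
        push_cast
        rfl
      obtain ⟨q, hq⟩ := simple_root (LK i a) (LK i b) m₀ ρ h3' (by
        rw [hρ]; field_simp; ring) (fun m hm h => by
          have h5 : (L i a m).1 * x + (L i a m).2 = 0 := by rw [← hval, h]; rfl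
          have h6 := (lc_zero_iff (g i a) (e i) m x).1 h5
          exact hm (pt_injective (he i) (h6.symm.trans hm₀))) (fun m h => by
          have h5 : (L i b m).1 * x + (L i b m).2 = 0 := by rw [← hval, h]; rfl
          have h6 := (lc_zero_iff (g i b) (e i) m x).1 h5
          exact h2 ((mem_Br_iff_pt (hf i) _).2 ⟨m, h6⟩))
      exact ⟨ρ, q, hq⟩
    intro a b hab
    obtain ⟨x, h1 | h1⟩ := exists_finite_diff (f i) (g i a) (g i b) (fun h => hab (hg i h))
    · exact key a b ⟨x, h1⟩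
    · obtain ⟨ρ, q, hq, h⟩ := key b a ⟨x, h1.2, h1.1⟩
      exact ⟨ρ, q, hq, fun x => by rw [h, mul_comm]⟩
  have hroot1 : ∀ i a, ∃ (ρ : K) (q : K[X]), q.eval ρ ≠ 0 ∧ ∀ x, (x - ρ) * q.eval x =
      ∏ m, (lf (LK i a m)).eval x := by
    intro i a
    obtain ⟨x, h1⟩ : ∃ x : Qb, mob (g i a) (x : OnePoint Qb) ∈ Br (f i) := by
      have hbr : ∀ j, ((e i j : Qb) : OnePoint Qb) ∈ Br (f i) := by
        intro j
        refine Or.inr ⟨_, rfl, ?_⟩
        rw [eval_of_prod (hf i)]
        exact Finset.prod_eq_zero (Finset.mem_univ j) (sub_self _)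
      by_cases h0 : (g i a)⁻¹ • ((e i 0 : Qb) : OnePoint Qb) = OnePoint.infty
      · have h1 : (g i a)⁻¹ • ((e i 1 : Qb) : OnePoint Qb) ≠ OnePoint.infty := by
          intro h1
          have h2 := MulAction.injective (g i a)⁻¹ (h0.trans h1.symm)
          exact absurd (he i (OnePoint.coe_injective h2)) (by decide)
        obtain ⟨x, hx⟩ := OnePoint.ne_infty_iff_exists.1 h1
        refine ⟨x, ?_⟩
        have h2 : mob (g i a) (x : OnePoint Qb) = ((e i 1 : Qb) : OnePoint Qb) := by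
          show g i a • (x : OnePoint Qb) = _
          rw [hx, smul_inv_smul]
        rw [h2]
        exact hbr 1
      · obtain ⟨x, hx⟩ := OnePoint.ne_infty_iff_exists.1 h0
        refine ⟨x, ?_⟩
        have h2 : mob (g i a) (x : OnePoint Qb) = ((e i 0 : Qb) : OnePoint Qb) := by
          show g i a • (x : OnePoint Qb) = _
          rw [hx, smul_inv_smul]
        rw [h2]
        exact hbr 0
    obtain ⟨m₀, hm₀⟩ := (mem_Br_iff_pt (hf i) _).1 h1
    have h3 := lc_fst_ne (g i a) (e i) m₀ hm₀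
    have h4 := (lc_zero_iff (g i a) (e i) m₀ x).2 hm₀
    have h3' : (LK i a m₀).1 ≠ 0 := by
      intro h
      apply h3
      show (L i a m₀).1 = 0
      rw [hL, h]
      rfl
    have hxK : x = ((-(LK i a m₀).2 / (LK i a m₀).1 : K) : Qb) := by
      have h5 : ((LK i a m₀).1 : Qb) * x + (LK i a m₀).2 = 0 := by
        have : (L i a m₀).1 * x + (L i a m₀).2 = 0 := h4
        rw [hL] at this
        exact this
      have h6 : ((LK i a m₀).1 : Qb) ≠ 0 := by
        intro h
        exact h3' (Subtype.ext h)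
      have h7 : ((-(LK i a m₀).2 / (LK i a m₀).1 : K) : Qb) =
          -((LK i a m₀).2 : Qb) / ((LK i a m₀).1 : Qb) := by push_cast; rfl
      rw [h7, eq_div_iff h6]
      linear_combination h5
    set ρ : K := -(LK i a m₀).2 / (LK i a m₀).1 with hρ
    have hval : ∀ a m, (((LK i a m).1 * ρ + (LK i a m).2 : K) : Qb) =
        (L i a m).1 * x + (L i a m).2 := by
      intro a m
      rw [hL, hxK]
      push_cast
      rfl
    obtain ⟨q, hq1, hq2⟩ := simple_root (LK i a) (fun _ => ((0 : K), (1 : K))) m₀ ρ h3' (by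
      rw [hρ]; field_simp; ring) (fun m hm h => by
        have h5 : (L i a m).1 * x + (L i a m).2 = 0 := by rw [← hval, h]; rfl
        have h6 := (lc_zero_iff (g i a) (e i) m x).1 h5
        exact hm (pt_injective (he i) (h6.symm.trans hm₀))) (fun m => by simp)
    refine ⟨ρ, q, hq1, fun y => ?_⟩
    rw [hq2]
    simp [eval_lf]
  -- torsion points
  have hT := fun i => finite_torsion (f i) (2 * Module.finrank ℚ K)
  let TX : I → Set Qb := fun i => {ξ | ∃ (y : Qb) (h : y ^ 2 = (f i).eval ξ),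
    Bdd (2 * Module.finrank ℚ K) (.aff ξ y h : Pt (f i)) ∧
      ∃ n : ℕ, n ≠ 0 ∧ n • jP (.aff ξ y h : Pt (f i)) = 0}
  have hTX : ∀ i, (TX i).Finite := by
    intro i
    refine ((hT i).image (fun P => match P with | .inf => 0 | .aff x _ _ => x)).subset ?_
    rintro ξ ⟨y, h, h1, h2⟩
    exact ⟨.aff ξ y h, ⟨h1, h2⟩, rfl⟩
  have hbad : {x : Qb | ∃ q : I × J, mob (g q.1 q.2) (x : OnePoint Qb) ∈
      insert OnePoint.infty ((fun ξ : Qb => (ξ : OnePoint Qb)) '' TX q.1)}.Finite := by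
    have h1 : {x : Qb | ∃ q : I × J, mob (g q.1 q.2) (x : OnePoint Qb) ∈
        insert OnePoint.infty ((fun ξ : Qb => (ξ : OnePoint Qb)) '' TX q.1)} =
        ⋃ q : I × J, {x : Qb | mob (g q.1 q.2) (x : OnePoint Qb) ∈
          insert OnePoint.infty ((fun ξ : Qb => (ξ : OnePoint Qb)) '' TX q.1)} := by
      ext x
      simp only [Set.mem_iUnion]
      rfl
    rw [h1]
    refine Set.finite_iUnion fun q => ?_
    refine (((hTX q.1).image _).insert _).preimage
      (f := fun x : Qb => mob (g q.1 q.2) (x : OnePoint Qb)) ?_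
    exact ((mob_injective (g q.1 q.2)).comp (fun x y h => coe_inj'.1 h)).injOn
  refine ⟨K, hfin, hRat, fun S Cs hCs => ?_⟩
  -- choice of `x`
  have hroot' : ∀ q : (I × J × J) ⊕ (I × J × Cs), ∃ (ρ : K) (p : K[X]), p.eval ρ ≠ 0 ∧
      (∀ i a b, q = Sum.inl (i, a, b) → a ≠ b → ∀ x, (x - ρ) * p.eval x =
        (∏ m, (lf (LK i a m)).eval x) * ∏ m, (lf (LK i b m)).eval x) ∧
      (∀ i a (c : Cs), q = Sum.inr (i, a, c) → ∀ x, (x - ρ) * p.eval x =
        (⟨(c : Qb) ^ 2, (hCs c c.2).2⟩ : K) * ∏ m, (lf (LK i a m)).eval x) := by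
    rintro (⟨i, a, b⟩ | ⟨i, a, c⟩)
    · by_cases hq : a = b
      · refine ⟨0, 1, by simp, ?_, ?_⟩
        · intro i' a' b' h hne
          have h' := Sum.inl.inj h
          simp only [Prod.mk.injEq] at h'
          obtain ⟨rfl, rfl, rfl⟩ := h'
          exact absurd hq hne
        · intro i' a' c' h
          exact absurd h (by simp)
      · obtain ⟨ρ, p, h1, h2⟩ := hroot i a b hq
        refine ⟨ρ, p, h1, ?_, ?_⟩
        · intro i' a' b' h hne
          have h' := Sum.inl.inj h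
          simp only [Prod.mk.injEq] at h'
          obtain ⟨rfl, rfl, rfl⟩ := h'
          exact h2
        · intro i' a' c' h
          exact absurd h (by simp)
    · obtain ⟨ρ, p, h1, h2⟩ := hroot1 i a
      refine ⟨ρ, C (⟨(c : Qb) ^ 2, (hCs c c.2).2⟩ : K) * p, ?_, ?_, ?_⟩
      · rw [eval_mul, eval_C]
        refine mul_ne_zero ?_ h1
        intro h0
        have h3 : (c : Qb) ^ 2 = 0 := congrArg (Subtype.val : K → Qb) h0
        exact (hCs c c.2).1 (pow_eq_zero_iff (two_ne_zero) |>.1 h3)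
      · intro i' a' b' h
        exact absurd h (by simp)
      · intro i' a' c' h
        have h' := Sum.inr.inj h
        simp only [Prod.mk.injEq] at h'
        obtain ⟨rfl, rfl, rfl⟩ := h'
        intro x
        rw [eval_mul, eval_C, ← h2]
        ring
  choose ρ p hp hρp hρc using hroot'
  let E := Fintype.equivFin ((I × J × J) ⊕ (I × J × Cs))
  obtain ⟨x, hxS, hx⟩ := exists_nonsquare K (fun i => ρ (E.symm i))
    (fun i => p (E.symm i)) (fun i => hp _)
    ((S ∪ hbad.toFinset).preimage (Subtype.val : K → Qb) Subtype.val_injective.injOn)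
  rw [Finset.mem_preimage, Finset.mem_union, not_or, Set.Finite.mem_toFinset] at hxS
  obtain ⟨hxS, hxB⟩ := hxS
  have hbad' : ∀ i a, mob (g i a) ((x : Qb) : OnePoint Qb) ∉
      insert OnePoint.infty ((fun ξ : Qb => (ξ : OnePoint Qb)) '' TX i) :=
    fun i a h => hxB ⟨(i, a), h⟩
  refine ⟨x, x.2, hxS, fun P hP i => ?_⟩
  have hden : ∀ a, g i a 1 0 * (x : Qb) + g i a 1 1 ≠ 0 := by
    intro a h
    apply hbad' i a
    rw [mob_coe, if_pos h]
    exact Set.mem_insert _ _
  have hmob : ∀ a, mob (g i a) ((x : Qb) : OnePoint Qb) =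
      (((g i a 0 0 * x + g i a 0 1) / (g i a 1 0 * x + g i a 1 1) : Qb) : OnePoint Qb) := by
    intro a
    rw [mob_coe, if_neg (hden a)]
  let ξK : J → K := fun a => (sK i a 0 0 * x + sK i a 0 1) / (sK i a 1 0 * x + sK i a 1 1)
  have hξK : ∀ a, ((ξK a : K) : Qb) =
      (g i a 0 0 * x + g i a 0 1) / (g i a 1 0 * x + g i a 1 1) := by
    intro a
    show (((sK i a 0 0 * x + sK i a 0 1) / (sK i a 1 0 * x + sK i a 1 1) : K) : Qb) = _
    push_cast
    rfl
  have hP' : ∀ a, ∃ (η : Qb) (h : η ^ 2 = (f i).eval ((ξK a : K) : Qb)),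
      P i a = .aff ((ξK a : K) : Qb) η h := by
    intro a
    have h1 : xo (P i a) = mob (g i a) ((x : Qb) : OnePoint Qb) := hP i a
    rw [hmob, ← hξK] at h1
    match hPa : P i a with
    | .inf =>
      rw [hPa] at h1
      exact absurd h1.symm (OnePoint.coe_ne_infty _)
    | .aff ξ η h =>
      rw [hPa] at h1
      have : ξ = ((ξK a : K) : Qb) := coe_inj'.1 h1
      subst this
      exact ⟨η, h, rfl⟩
  choose η hη hPη using hP'
  have hprod : ∀ a, ((∏ m, (lf (LK i a m)).eval x : K) : Qb) =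
      (η a) ^ 2 * (g i a 1 0 * x + g i a 1 1) ^ 6 := by
    intro a
    rw [hη a, eval_of_prod (hf i), hξK, prod_lc _ _ _ _ (e i) (hden a)]
    have h1 := map_prod (algebraMap K Qb) (fun m => (lf (LK i a m)).eval x) Finset.univ
    refine Eq.trans h1 ?_
    refine Finset.prod_congr rfl fun m _ => ?_
    exact map_lf (algebraMap K Qb) _ _ _ _ _ m x
  have hyy : ∀ a, D3b_y (P i a) = η a := by
    intro a
    rw [hPη]
    rfl
  refine ⟨fun a => ⟨⟨_, _, _, hPη a⟩, ?_, ?_, ?_⟩, ?_⟩
  · rw [hPη]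
    exact (ξK a).2
  · intro n hn h0
    apply hbad' i a
    right
    refine ⟨((ξK a : K) : Qb), ?_, by rw [hmob, hξK]⟩
    rw [hPη] at h0
    refine ⟨η a, hη a, ⟨?_, ?_⟩, n, hn, h0⟩
    · refine natDegree_le_of_orbit K ((ξK a : K) : Qb) ((ξK a : K) : Qb)
        fun σ hσ => Or.inl ⟨?_, ?_⟩
      · exact (IntermediateField.mem_fixingSubgroup_iff K σ).1 hσ _ (ξK a).2
      · exact (IntermediateField.mem_fixingSubgroup_iff K σ).1 hσ _ (ξK a).2
    · refine natDegree_le_of_orbit K (η a) (-η a) fun σ hσ => ?_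
      have h1 : σ (η a) ^ 2 = η a ^ 2 := by
        rw [← map_pow, hη, eval_of_prod (hf i)]
        have h2 : (∏ j, (((ξK a : K) : Qb) - e i j)) = ((∏ j, (ξK a - eK i j) : K) : Qb) := by
          have h3 := map_prod (algebraMap K Qb) (fun j => ξK a - eK i j) Finset.univ
          refine Eq.trans ?_ h3.symm
          refine Finset.prod_congr rfl fun j _ => ?_
          rw [map_sub]
          rfl
        rw [h2]
        exact (IntermediateField.mem_fixingSubgroup_iff K σ).1 hσ _ (_ : K).2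
      rcases sq_eq_sq_iff_eq_or_eq_neg.1 h1 with h2 | h2
      · exact Or.inl ⟨h2, by rw [map_neg, h2]⟩
      · exact Or.inr ⟨h2, by rw [map_neg, h2, neg_neg]⟩
  · intro c hc hmem
    rw [hyy] at hmem
    apply hx (E (Sum.inr (i, a, ⟨c, hc⟩)))
    rw [Equiv.symm_apply_apply, hρc _ i a ⟨c, hc⟩ rfl]
    refine ⟨⟨c * η a, hmem⟩ * (sK i a 1 0 * x + sK i a 1 1) ^ 3, ?_⟩
    apply Subtype.ext
    show (c : Qb) ^ 2 * ((∏ m, (lf (LK i a m)).eval x : K) : Qb) =
      (c * η a * (g i a 1 0 * x + g i a 1 1) ^ 3) * (c * η a * (g i a 1 0 * x + g i a 1 1) ^ 3)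
    rw [hprod]
    ring
  · intro a b hab hmem
    rw [hyy, hyy] at hmem
    apply hx (E (Sum.inl (i, a, b)))
    rw [Equiv.symm_apply_apply, hρp _ i a b rfl hab]
    refine ⟨⟨η a * η b, hmem⟩ * ((sK i a 1 0 * x + sK i a 1 1) ^ 3 *
      (sK i b 1 0 * x + sK i b 1 1) ^ 3), ?_⟩
    apply Subtype.ext
    show ((∏ m, (lf (LK i a m)).eval x : K) : Qb) * ((∏ m, (lf (LK i b m)).eval x : K) : Qb) =
      (η a * η b * (((g i a 1 0 * x + g i a 1 1) ^ 3 * (g i b 1 0 * x + g i b 1 1) ^ 3 : Qb))) *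
      (η a * η b * (((g i a 1 0 * x + g i a 1 1) ^ 3 * (g i b 1 0 * x + g i b 1 1) ^ 3 : Qb)))
    rw [hprod, hprod]
    ring

end Pool.Agent.LibDih3
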