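import Pool.Agent.LibDih3.FamRing

/-!
Zero-cycles on products of symmetric powers whose classes are affine functions.
-/

open scoped Classical

namespace Pool.Agent.LibDih3

open Pool.Agent.LibBH2 Pool.Agent.LibQC8 Pool.Agent.LibLP34

theorem prod_affine {R : Type} [CommRing R] {I : Type} (s : Finset I) (a b x : I → R)
    (hx : ∀ i j, x i * x j = 0) : ∏ i ∈ s, (a i + x i * b i) =
      ∏ i ∈ s, a i + ∑ i ∈ s, x i * (b i * ∏ j ∈ s.erase i, a j) := by
  induction s using Finset.induction_on with
  | empty => simp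
  | insert i s hi ih =>
    rw [Finset.prod_insert hi, ih, Finset.prod_insert hi, Finset.sum_insert hi,
      Finset.erase_insert hi]
    have h1 : ∑ l ∈ s, x l * (b l * ∏ j ∈ (insert i s).erase l, a j) =
        a i * ∑ l ∈ s, x l * (b l * ∏ j ∈ s.erase l, a j) := by
      rw [Finset.mul_sum]
      refine Finset.sum_congr rfl fun l hl => ?_
      have hne : l ≠ i := by rintro rfl; exact hi hl
      rw [Finset.erase_insert_of_ne hne.symm, Finset.prod_insert (by
        intro h; exact hi (Finset.mem_of_mem_erase h))]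
      ring
    have h2 : x i * b i * ∑ l ∈ s, x l * (b l * ∏ j ∈ s.erase l, a j) = 0 := by
      rw [Finset.mul_sum]
      refine Finset.sum_eq_zero fun l _ => ?_
      linear_combination (b i * (b l * ∏ j ∈ s.erase l, a j)) * hx i l
    rw [h1]
    linear_combination h2

variable {k : Type} [Field k] {I : Type} {F : I → Type} [∀ i, Field (F i)] [∀ i, Algebra k (F i)]

/-- the classes whose power series is `1 + x T` with `x` in `A` -/
def LinU (hF : ∀ i, IsFunctionField k (F i)) (w : ∀ i, Place k (F i)) (A : Set (ChU k F)) (i : I) :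
    Set (Pic0 k (F i)) :=
  {u | ∃ x : Ch k (F i), ((EP (hF i) (w i) u).toMul : PowerSeries (Ch k (F i))) = aff x ∧
    inc F i x ∈ A}

/-- the class on `C^(N)` of an effective divisor whose class is `ξ + u` -/
theorem class_affine {F₁ : Type} [Field F₁] [Algebra k F₁] (hF : IsFunctionField k F₁)
    (w : Place k F₁) (ξ u : Pic0 k F₁) (x : Ch k F₁)
    (hx : ((EP hF w u).toMul : PowerSeries (Ch k F₁)) = aff x) (D : Multiset (Place k F₁))
    (hD : cl w D = ξ + u) : (D.map y).prod =
      (∑ a ∈ Finset.range (D.card + 1), PowerSeries.coeff a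
        ((EP hF w ξ).toMul : PowerSeries (Ch k F₁)) * y w ^ (D.card - a)) +
      x * (∑ a ∈ Finset.range (D.card + 1), PowerSeries.coeff a
        (((EP hF w ξ).toMul : PowerSeries (Ch k F₁)) * PowerSeries.X) * y w ^ (D.card - a)) := by
  rw [class_eq hF w, hD, Finset.mul_sum, ← Finset.sum_add_distrib]
  refine Finset.sum_congr rfl fun a _ => ?_
  rw [ee, map_add, toMul_add, Units.val_mul, hx, aff, mul_add, mul_one, map_add]
  have h1 : ((EP hF w ξ).toMul : PowerSeries (Ch k F₁)) * (PowerSeries.C x * PowerSeries.X) =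
      PowerSeries.C x * (((EP hF w ξ).toMul : PowerSeries (Ch k F₁)) * PowerSeries.X) := by ring
  rw [h1, PowerSeries.coeff_C_mul]
  ring

variable [Fintype I]

theorem mk_pt (D : ∀ i, Multiset (Place k (F i))) :
    Ideal.Quotient.mk (relIdealU k F) (mono (pt D)) = ∏ i, inc F i ((D i).map y).prod := by
  rw [mk_monoU, pt]
  have h1 : ∀ s : Finset I, ((∑ i ∈ s, (D i).map (Sigma.mk i) : Multiset (UPt k F)).map
      yU).prod = ∏ i ∈ s, inc F i ((D i).map y).prod := by
    intro s
    induction s using Finset.induction_on with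
    | empty => simp
    | insert i s hi ih =>
      rw [Finset.sum_insert hi, Finset.prod_insert hi, Multiset.map_add, Multiset.prod_add, ih,
        map_multiset_prod, Multiset.map_map, Multiset.map_map]
      congr 3
      funext a
      exact (inc_y i a).symm
  exact h1 _

theorem card_pt (D : ∀ i, Multiset (Place k (F i))) : (pt D).card = ∑ i, (D i).card := by
  rw [pt, Multiset.card_sum]
  simp

theorem torsionOnU_LinU (hF : ∀ i, IsFunctionField k (F i)) (w : ∀ i, Place k (F i))
    (A : Set (ChU k F)) (hA : ∀ a ∈ A, ∀ b ∈ A, a * b = 0) :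
    TorsionOnU w (LinU hF w A) := by
  rintro ξ N c ⟨n, D, m, u, hD, hsum, h0, rfl⟩
  refine torsion_of_memU ?_ ?_
  · intro E hE
    have := Finsupp.support_finsetSum hE
    rw [Finset.mem_biUnion] at this
    obtain ⟨j, _, hj⟩ := this
    have := Finsupp.support_single_subset hj
    rw [Finset.mem_singleton] at this
    rw [this, card_pt]
    exact Finset.sum_congr rfl fun i _ => (hD j i).1
  · have hu := fun j i => (hD j i).2.1
    choose x hx hxA using hu
    -- the sums of the linear parts
    have hlin : ∀ i, ∑ j, (m j : ℚ) • x j i = 0 := by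
      intro i
      have hx' : ∀ j, e1 (hF i) (w i) (u j i) = x j i := by
        intro j
        show PowerSeries.coeff 1 ((EP (hF i) (w i) (u j i)).toMul : PowerSeries (Ch k (F i))) = x j i
        rw [hx, coeff_one_aff]
      obtain ⟨-, q, hq, h1⟩ := hsum i
      have h2 : e1 (hF i) (w i) (∑ j, m j • u j i) = 0 := by
        apply eq_zero_of_nsmul q hq
        rw [← map_nsmul, h1, map_zero]
      rw [map_sum] at h2
      rw [← h2]
      refine Finset.sum_congr rfl fun j _ => ?_
      rw [map_zsmul, hx', Int.cast_smul_eq_zsmul]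
    rw [← Ideal.Quotient.eq_zero_iff_mem, map_sum, map_sum]
    obtain ⟨a, ha⟩ : ∃ a : ∀ i, Ch k (F i), ∀ i, a i = ∑ l ∈ Finset.range (N i + 1),
      PowerSeries.coeff l ((EP (hF i) (w i) (ξ i)).toMul : PowerSeries (Ch k (F i))) *
        y (w i) ^ (N i - l) := ⟨_, fun _ => rfl⟩
    obtain ⟨b, hb⟩ : ∃ b : ∀ i, Ch k (F i), ∀ i, b i = ∑ l ∈ Finset.range (N i + 1),
      PowerSeries.coeff l (((EP (hF i) (w i) (ξ i)).toMul : PowerSeries (Ch k (F i))) *
        PowerSeries.X) * y (w i) ^ (N i - l) := ⟨_, fun _ => rfl⟩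
    have hcl : ∀ j i, ((D j i).map y).prod = a i + x j i * b i := by
      intro j i
      rw [class_affine (hF i) (w i) (ξ i) (u j i) (x j i) (hx j i) (D j i) (hD j i).2.2,
        (hD j i).1, ha, hb]
    have h4 : ∀ j, Ideal.Quotient.mk (relIdealU k F) (ι (Finsupp.single (pt (D j)) (m j))) =
        (m j : ℚ) • ∏ i, inc F i (a i) + ∑ i, inc F i ((m j : ℚ) • x j i) *
          (inc F i (b i) * ∏ i' ∈ Finset.univ.erase i, inc F i' (a i')) := by
      intro j
      rw [ι_single, mk_smulU, mk_pt]
      have h5 : ∀ i, inc F i ((D j i).map y).prod =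
          inc F i (a i) + inc F i (x j i) * inc F i (b i) := by
        intro i
        rw [hcl, map_add, map_mul]
      rw [Finset.prod_congr rfl fun i _ => h5 i, prod_affine Finset.univ (fun i => inc F i (a i))
        (fun i => inc F i (b i)) (fun i => inc F i (x j i))
        (fun i i' => hA _ (hxA j i) _ (hxA j i')), smul_add, Finset.smul_sum]
      congr 1
      refine Finset.sum_congr rfl fun i _ => ?_
      rw [inc_smul, smul_mul_assoc]
    rw [Finset.sum_congr rfl fun j _ => h4 j, Finset.sum_add_distrib, ← Finset.sum_smul,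
      Finset.sum_comm]
    have h6 : ∑ j, (m j : ℚ) = 0 := by exact_mod_cast h0
    rw [h6, zero_smul, zero_add]
    refine Finset.sum_eq_zero fun i _ => ?_
    rw [← Finset.sum_mul, ← map_sum, hlin, map_zero, zero_mul]

end Pool.Agent.LibDih3
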