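import Pool.Agent.LibDih3.Fam
import Pool.Agent.LibLP34.Bridge

/-!
Points of curves of genus two over related points of the projective line.
-/

open scoped Classical
open Polynomial

namespace Pool.Agent.LibDih3

open Pool.Agent.LibBH2 Pool.Agent.LibQC8 Pool.Agent.LibLP34
open Pool.Agent.LibJac77 (Genus2 Pt KC DCf vp dv neg jP Pic mk Qb)

variable {k : Type} [Field k]

/-- The `x`-coordinate of a point of the curve `y ^ 2 = f(x)`, as a point of the projective line. -/
def xo {f : k[X]} : Pt f → OnePoint k
  | .inf => OnePoint.infty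
  | .aff x _ _ => (x : OnePoint k)

/-- `BrAt f g`: the six points `z` of the projective line such that `g z` is a branch point (infinity
or a root of `f`) of the curve `y ^ 2 = f(x)`; `g` is a projective map. -/
def BrAt (f : k[X]) (g : GL (Fin 2) k) : Set (OnePoint k) :=
  {z | g • z = OnePoint.infty ∨ ∃ x : k, g • z = (x : OnePoint k) ∧ f.eval x = 0}

/-- The projective map `g' g⁻¹` exchanges the branch points `g a` and `g b`, and the branch points
`g c` and `g d`. -/
def Swap (f : k[X]) (g g' : GL (Fin 2) k) : Prop :=
  ∃ a b c d : OnePoint k, [a, b, c, d].Nodup ∧ a ∈ BrAt f g ∧ b ∈ BrAt f g ∧ c ∈ BrAt f g ∧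
    d ∈ BrAt f g ∧ g' • a = g • b ∧ g' • b = g • a ∧ g' • c = g • d ∧ g' • d = g • c

/-- The condition on the projective maps `g i a`: any two of the sets `(g i a)⁻¹ B_i`, `B_i` the set
of branch points of the curve `C_i : y ^ 2 = f_i(x)`, have at least five common points, or belong to
the same curve `C_i` and `g i a'` composed with the inverse of `g i a` exchanges two pairs of branch
points. -/
def Related {I J : Type} (f : I → k[X]) (g : I → J → GL (Fin 2) k) : Prop :=
  ∀ i i' a a', 5 ≤ (BrAt (f i) (g i a) ∩ BrAt (f i') (g i' a')).ncard ∨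
    (i = i' ∧ Swap (f i) (g i a) (g i a'))

/-- `P i a` is a point of `C_i` over the point `g i a z` of the projective line. -/
def Over {I J : Type} {f : I → k[X]} (g : I → J → GL (Fin 2) k) (z : OnePoint k)
    (P : ∀ i, J → Pt (f i)) : Prop :=
  ∀ i a, xo (P i a) = g i a • z

end Pool.Agent.LibDih3
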