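import Pool.Agent.LibDih3.Mob
import Pool.Agent.LibDih3.Form

/-!
Projective maps and the sextuples of branch points.
-/

open scoped Classical
open Polynomial

namespace Pool.Agent.LibDih3

open Pool.Agent.LibJac77 (Genus2 Pt KC DCf vp dv neg jP Pic mk Qb)

variable {k : Type} [Field k]

theorem det_ne (g : GL (Fin 2) k) : g 0 0 * g 1 1 - g 0 1 * g 1 0 ≠ 0 := by
  have h := g.det_ne_zero
  rw [Matrix.det_fin_two] at h
  exact h

/-- the value of a projective map at a finite point -/
theorem smul_coe_iff (g : GL (Fin 2) k) (t ξ : k) :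
    g • (t : OnePoint k) = (ξ : OnePoint k) ↔
      ξ * (g 1 0 * t + g 1 1) = g 0 0 * t + g 0 1 := by
  rw [OnePoint.smul_some_eq_ite]
  by_cases h : g 1 0 * t + g 1 1 = 0
  · rw [if_pos h, h, mul_zero]
    constructor
    · intro h1
      exact absurd h1 (OnePoint.infty_ne_coe ξ)
    · intro h1
      exfalso
      apply det_ne g
      have h2 : g 1 0 * (g 0 0 * t + g 0 1) = 0 := by rw [← h1, mul_zero]
      linear_combination (g 0 0) * h - h2
  · rw [if_neg h, OnePoint.coe_eq_coe, div_eq_iff h]
    exact ⟨fun h1 => h1.symm, fun h1 => h1.symm⟩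

theorem smul_coe_eq_infty_iff (g : GL (Fin 2) k) (t : k) :
    g • (t : OnePoint k) = OnePoint.infty ↔ g 1 0 * t + g 1 1 = 0 := by
  rw [OnePoint.smul_some_eq_ite]
  by_cases h : g 1 0 * t + g 1 1 = 0
  · rw [if_pos h]
    exact ⟨fun _ => h, fun _ => rfl⟩
  · rw [if_neg h]
    constructor
    · intro h1
      exact absurd h1.symm (OnePoint.infty_ne_coe _)
    · intro h1
      exact absurd h1 h

/-- infinity as a branch point -/
theorem infty_mem_BrAt (f : k[X]) (g : GL (Fin 2) k) :
    OnePoint.infty ∈ BrAt f g ↔ g 1 0 = 0 ∨ f.eval (g 0 0 / g 1 0) = 0 := by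
  show (g • (OnePoint.infty : OnePoint k) = OnePoint.infty ∨ _) ↔ _
  rw [OnePoint.smul_infty_eq_ite]
  by_cases h : g 1 0 = 0
  · rw [if_pos h]
    simp [h]
  · rw [if_neg h]
    constructor
    · rintro (h1 | ⟨x, h1, h2⟩)
      · exact absurd h1.symm (OnePoint.infty_ne_coe _)
      · right
        rw [OnePoint.coe_eq_coe] at h1
        rw [h1]
        exact h2
    · rintro (h1 | h1)
      · exact absurd h1 h
      · exact Or.inr ⟨_, rfl, h1⟩

/-- finite branch points are the roots of the form -/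
theorem coe_mem_BrAt (f : k[X]) [Genus2 f] (g : GL (Fin 2) k) (t : k) :
    (t : OnePoint k) ∈ BrAt f g ↔ (Fm f (g 0 0) (g 0 1) (g 1 0) (g 1 1)).eval t = 0 := by
  show (g • (t : OnePoint k) = OnePoint.infty ∨ _) ↔ _
  rw [smul_coe_eq_infty_iff]
  by_cases h : g 1 0 * t + g 1 1 = 0
  · have h2 : (Fm f (g 0 0) (g 0 1) (g 1 0) (g 1 1)).eval t = 0 := by
      rw [Fm, eval_mul, eval_add, eval_mul, eval_C, eval_X, eval_C, h, zero_mul]
    exact ⟨fun _ => h2, fun _ => Or.inl h⟩
  · have h3 : (g 0 0 * t + g 0 1) / (g 1 0 * t + g 1 1) * (g 1 0 * t + g 1 1) =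
      g 0 0 * t + g 0 1 := div_mul_cancel₀ _ h
    rw [eval_Fm f h3]
    constructor
    · rintro (h1 | ⟨x, h1, h2⟩)
      · exact absurd h1 h
      · rw [smul_coe_iff] at h1
        have h4 : x = (g 0 0 * t + g 0 1) / (g 1 0 * t + g 1 1) := by rw [eq_div_iff h, h1]
        rw [← h4, h2, zero_mul]
    · intro h1
      right
      refine ⟨_, (smul_coe_iff g t _).2 h3, ?_⟩
      exact (mul_eq_zero.1 h1).resolve_right (pow_ne_zero _ h)

/-- points over branch points are Weierstrass points -/
theorem neg_eq_of_mem {f : k[X]} {g : GL (Fin 2) k} {z : OnePoint k} {P : Pt f}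
    (hP : xo P = g • z) (hz : z ∈ BrAt f g) : neg P = P := by
  match P with
  | .inf => rfl
  | .aff x y h =>
    rcases hz with h1 | ⟨x', h1, h2⟩
    · rw [h1] at hP
      exact absurd hP.symm (OnePoint.infty_ne_coe _)
    · rw [h1] at hP
      have h3 : x = x' := OnePoint.coe_eq_coe.1 hP
      rw [← h3, ← h] at h2
      have h4 : y = 0 := pow_eq_zero_iff (two_ne_zero) |>.1 h2
      subst h4
      simp [neg]

/-- a projective map with a given value at infinity -/
theorem exists_infty (b : OnePoint k) : ∃ h : GL (Fin 2) k, h • OnePoint.infty = b := by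
  induction b using OnePoint.rec with
  | infty => exact ⟨1, one_smul _ _⟩
  | coe β =>
    refine ⟨Matrix.GeneralLinearGroup.mkOfDetNeZero !![β, -1; 1, 0] (by
      rw [Matrix.det_fin_two]; simp), ?_⟩
    rw [OnePoint.smul_infty_eq_ite]
    simp [Matrix.GeneralLinearGroup.mkOfDetNeZero]

theorem mem_BrAt_mul (f : k[X]) (g h : GL (Fin 2) k) (z : OnePoint k) :
    z ∈ BrAt f (g * h) ↔ h • z ∈ BrAt f g := by
  show ((g * h) • z = OnePoint.infty ∨ _) ↔ (g • h • z = OnePoint.infty ∨ _)
  rw [mul_smul]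

/-- there are six branch points -/
theorem ncard_BrAt [CharZero k] [IsAlgClosed k] (f : k[X]) [Genus2 f] (g : GL (Fin 2) k) :
    (BrAt f g).ncard = 6 := by
  have h1 : BrAt f g = (g⁻¹ • ·) '' (insert OnePoint.infty
      ((fun x : k => (x : OnePoint k)) '' (f.roots.toFinset : Set k))) := by
    ext z
    constructor
    · intro hz
      refine ⟨g • z, ?_, inv_smul_smul g z⟩
      rcases hz with h | ⟨x, h, h'⟩
      · rw [h]
        exact Set.mem_insert _ _
      · rw [h]
        refine Set.mem_insert_of_mem _ ⟨x, ?_, rfl⟩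
        simp only [Multiset.mem_toFinset, Finset.mem_coe]
        rw [mem_roots (Genus2.monic (f := f)).ne_zero]
        exact h'
    · rintro ⟨w, hw, rfl⟩
      show g • g⁻¹ • w = OnePoint.infty ∨ _
      rcases hw with h | ⟨x, h, rfl⟩
      · left
        rw [smul_inv_smul, h]
      · right
        refine ⟨x, smul_inv_smul g _, ?_⟩
        simp only [Multiset.mem_toFinset, Finset.mem_coe] at h
        rw [mem_roots (Genus2.monic (f := f)).ne_zero] at h
        exact h
  rw [h1, Set.ncard_image_of_injective _ (MulAction.injective g⁻¹), Set.ncard_insert_of_notMem,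
    Set.ncard_image_of_injective _ OnePoint.coe_injective, Set.ncard_coe_finset,
    Multiset.toFinset_card_of_nodup, ← (IsAlgClosed.splits f).natDegree_eq_card_roots,
    Genus2.deg (f := f)]
  · exact nodup_roots (PerfectField.separable_iff_squarefree.2 (Genus2.sqf (f := f)))
  · rintro ⟨x, _, hx⟩
    exact OnePoint.coe_ne_infty x hx

end Pool.Agent.LibDih3
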