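import Pool.Agent.LibDih3.Data

/-!
The pair lemma for two sextuples of branch points with five common points.
-/

open scoped Classical
open Polynomial

namespace Pool.Agent.LibDih3

open Pool.Agent.LibBH2 Pool.Agent.LibQC8 Pool.Agent.LibLP34 Pool.Agent.LibK4
open Pool.Agent.LibJac77 (Genus2 Pt KC DCf vp dv neg jP Pic mk)

variable {k : Type} [Field k]

theorem prod_dvd (s : Finset k) (G : k[X]) (h : ∀ t ∈ s, G.eval t = 0) :
    ∏ t ∈ s, (X - C t) ∣ G := by
  apply Finset.prod_dvd_of_coprime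
  · intro a _ b _ hab
    exact pairwise_coprime_X_sub_C Function.injective_id hab
  · intro t ht
    rw [dvd_iff_isRoot]
    exact h t ht

theorem natDegree_prod5 (s : Finset k) (hs : s.card = 5) :
    (∏ t ∈ s, (X - C t)).natDegree = 5 := by
  rw [natDegree_finsetProd_X_sub_C_eq_card]
  exact hs

theorem exists_lin (s : Finset k) (hs : s.card = 5) (G : k[X]) (hG : G ≠ 0)
    (hd : G.natDegree ≤ 6) (h : ∀ t ∈ s, G.eval t = 0) :
    ∃ a b : k, (a ≠ 0 ∨ b ≠ 0) ∧ G = (∏ t ∈ s, (X - C t)) * (C a * X + C b) := by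
  obtain ⟨L, hL⟩ := prod_dvd s G h
  have hL0 : L ≠ 0 := by
    rintro rfl
    exact hG (by rw [hL, mul_zero])
  have hS0 : ∏ t ∈ s, (X - C t) ≠ 0 := by
    intro h0
    exact hG (by rw [hL, h0, zero_mul])
  have h1 : L.natDegree ≤ 1 := by
    rw [hL, natDegree_mul hS0 hL0, natDegree_prod5 s hs] at hd
    omega
  obtain ⟨a, b, rfl⟩ := exists_eq_X_add_C_of_natDegree_le_one h1
  refine ⟨a, b, ?_, hL⟩
  by_contra hab
  push Not at hab
  apply hL0
  rw [hab.1, hab.2]
  simp

theorem exists_const (s : Finset k) (hs : s.card = 5) (G : k[X]) (hG : G ≠ 0)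
    (hd : G.natDegree ≤ 6) (h6 : G.coeff 6 = 0) (h : ∀ t ∈ s, G.eval t = 0) :
    ∃ c : k, c ≠ 0 ∧ G = (∏ t ∈ s, (X - C t)) * C c := by
  obtain ⟨a, b, hab, hL⟩ := exists_lin s hs G hG hd h
  have ha : a = 0 := by
    rw [hL] at h6
    have h1 := coeff_mul_add_eq_of_natDegree_le (natDegree_prod5 s hs).le (natDegree_lin a b)
    rw [show (5 : ℕ) + 1 = 6 from rfl, h6] at h1
    have h2 : (∏ t ∈ s, (X - C t)).coeff 5 = 1 := by
      have h3 := (monic_prod_of_monic s (fun t => X - C t) (fun t _ => monic_X_sub_C t)).coeff_natDegree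
      rwa [natDegree_prod5 s hs] at h3
    rw [h2, one_mul] at h1
    have h4 : (C a * X + C b : k[X]).coeff 1 = a := by simp
    rw [h4] at h1
    exact h1.symm
  subst ha
  refine ⟨b, ?_, ?_⟩
  · rcases hab with h | h
    · exact absurd rfl h
    · exact h
  · rw [hL]
    simp

variable [CharZero k] [IsAlgClosed k] {f f' : k[X]} [Genus2 f] [Genus2 f']

/-- the data of the pair lemma -/
theorem data5 {α β γ δ α' β' γ' δ' : k} (hΔ : α * δ - β * γ ≠ 0) (hΔ' : α' * δ' - β' * γ' ≠ 0)
    (hinf : γ' = 0 ∨ f'.eval (α' / γ') = 0) (s : Finset k) (hs : s.card = 5)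
    (hs1 : ∀ t ∈ s, (Fm f α β γ δ).eval t = 0) (hs2 : ∀ t ∈ s, (Fm f' α' β' γ' δ').eval t = 0)
    {t ξ η ξ' η' : k} (h : η ^ 2 = f.eval ξ) (h' : η' ^ 2 = f'.eval ξ')
    (hξ : ξ * (γ * t + δ) = α * t + β) (hξ' : ξ' * (γ' * t + δ') = α' * t + β')
    (hη : η ≠ 0) (hη' : η' ≠ 0) :
    Data (.aff ξ η h : Pt f) (.aff ξ' η' h' : Pt f') := by
  have hden := den_ne_zero' hΔ hξ
  have hden' := den_ne_zero' hΔ' hξ'
  have hfξ : f.eval ξ ≠ 0 := by rw [← h]; exact pow_ne_zero _ hη
  have hfξ' : f'.eval ξ' ≠ 0 := by rw [← h']; exact pow_ne_zero _ hη'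
  have e1 := eval_Fm f hξ
  have e2 := eval_Fm f' hξ'
  have hG : Fm f α β γ δ ≠ 0 := by
    intro h0
    rw [h0, eval_zero] at e1
    exact mul_ne_zero hfξ (pow_ne_zero _ hden) e1.symm
  have hG' : Fm f' α' β' γ' δ' ≠ 0 := by
    intro h0
    rw [h0, eval_zero] at e2
    exact mul_ne_zero hfξ' (pow_ne_zero _ hden') e2.symm
  obtain ⟨a, b, hab, hL⟩ := exists_lin s hs _ hG (natDegree_Fm _ _ _ _ _) hs1
  obtain ⟨c, hc, hL'⟩ := exists_const s hs _ hG' (natDegree_Fm _ _ _ _ _)
    (coeff_Fm_eq_zero f' β' δ' hinf) hs2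
  obtain ⟨Sg, hSg⟩ : ∃ Sg : k[X], Sg = ∏ t ∈ s, (X - C t) := ⟨_, rfl⟩
  rw [← hSg] at hL hL'
  rw [hL] at e1
  rw [hL'] at e2
  simp only [eval_mul, eval_add, eval_C, eval_X] at e1 e2
  have hSt : Sg.eval t ≠ 0 := by
    intro h0
    rw [h0, zero_mul] at e2
    exact mul_ne_zero hfξ' (pow_ne_zero _ hden') e2.symm
  -- the field
  obtain ⟨H, _, _, ι, y, y', hH, hy, hy'⟩ := exists_H
    (aeval ((algebraMap k _ α * RatFunc.X + algebraMap k _ β) /
      (algebraMap k _ γ * RatFunc.X + algebraMap k _ δ) : RatFunc k) f)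
    (aeval ((algebraMap k _ α' * RatFunc.X + algebraMap k _ β') /
      (algebraMap k _ γ' * RatFunc.X + algebraMap k _ δ') : RatFunc k) f')
  obtain ⟨T, hT⟩ : ∃ T : H, T = ι RatFunc.X := ⟨_, rfl⟩
  have hTt : Transcendental k T := by rw [hT]; exact Pool.Agent.LibJac77.transcendental_ι ι
  obtain ⟨x, hx⟩ : ∃ x : H, x = (algebraMap k H α * T + algebraMap k H β) /
    (algebraMap k H γ * T + algebraMap k H δ) := ⟨_, rfl⟩
  obtain ⟨x', hx'⟩ : ∃ x' : H, x' = (algebraMap k H α' * T + algebraMap k H β') /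
    (algebraMap k H γ' * T + algebraMap k H δ') := ⟨_, rfl⟩
  have hd := den_ne_zero hTt hΔ
  have hd' := den_ne_zero hTt hΔ'
  rw [← aeval_algHom_apply, map_div₀, map_add, map_add, map_mul, map_mul, ← hT, AlgHom.commutes,
    AlgHom.commutes, AlgHom.commutes, AlgHom.commutes, ← hx] at hy
  rw [← aeval_algHom_apply, map_div₀, map_add, map_add, map_mul, map_mul, ← hT, AlgHom.commutes,
    AlgHom.commutes, AlgHom.commutes, AlgHom.commutes, ← hx'] at hy'
  have hxx : x * (algebraMap k H γ * T + algebraMap k H δ) =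
      algebraMap k H α * T + algebraMap k H β := by rw [hx, div_mul_cancel₀ _ hd]
  have hxx' : x' * (algebraMap k H γ' * T + algebraMap k H δ') =
      algebraMap k H α' * T + algebraMap k H β' := by rw [hx', div_mul_cancel₀ _ hd']
  obtain ⟨D, hD⟩ : ∃ D : H, D = algebraMap k H γ * T + algebraMap k H δ := ⟨_, rfl⟩
  obtain ⟨D', hD'⟩ : ∃ D' : H, D' = algebraMap k H γ' * T + algebraMap k H δ' := ⟨_, rfl⟩
  obtain ⟨Z, hZ⟩ : ∃ Z : H, Z = aeval T Sg := ⟨_, rfl⟩
  have E1 := aeval_Fm f hxx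
  have E2 := aeval_Fm f' hxx'
  rw [hL] at E1
  rw [hL'] at E2
  simp only [map_mul, map_add, aeval_C, aeval_X] at E1 E2
  rw [← hD, ← hZ] at E1
  rw [← hD', ← hZ] at E2
  rw [← hD] at hd
  rw [← hD'] at hd'
  have hfx : aeval x f ≠ 0 := by
    intro h0
    exact transcendental_mob hTt hΔ hxx ⟨f, (Genus2.monic (f := f)).ne_zero, h0⟩
  have hZ0 : Z ≠ 0 := by
    intro h0
    rw [h0, zero_mul] at E1
    exact mul_ne_zero hfx (pow_ne_zero _ hd) E1.symm
  have hy0 : y ≠ 0 := by
    rintro rfl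
    rw [zero_pow two_ne_zero] at hy
    exact hfx hy.symm
  obtain ⟨r₀, hr₀⟩ : ∃ r₀ : k, r₀ = η * η' * (γ * t + δ) ^ 3 * (γ' * t + δ') ^ 3 / Sg.eval t :=
    ⟨_, rfl⟩
  have hr02 : r₀ ^ 2 = c * (a * t + b) := by
    rw [hr₀, div_pow, div_eq_iff (pow_ne_zero _ hSt), mul_pow, mul_pow, mul_pow, h, h']
    linear_combination (-(f'.eval ξ' * (γ' * t + δ') ^ 6)) * e1 - (Sg.eval t * (a * t + b)) * e2
  have hyy : ∀ v : Place k H, v.Zer (T - algebraMap k H t) → ∀ r : H,
      v.Zer (r - algebraMap k H r₀) →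
      v.Zer (r * Z / (D ^ 3 * D' ^ 3) - algebraMap k H (η * η')) := by
    intro v hTv r hrv
    have g1 := Place.val_add (Place.val_mul (Place.val_const (v := v) γ) hTv)
      (Place.val_const (v := v) δ)
    have g2 := Place.val_add (Place.val_mul (Place.val_const (v := v) γ') hTv)
      (Place.val_const (v := v) δ')
    rw [← hD] at g1
    rw [← hD'] at g2
    have g3 := Place.val_div (Place.val_mul hrv (Place.val_aeval hTv Sg))
      (Place.val_mul (Place.val_pow g1 3) (Place.val_pow g2 3))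
      (mul_ne_zero (pow_ne_zero _ hden) (pow_ne_zero _ hden'))
    have g4 : r₀ * Sg.eval t / ((γ * t + δ) ^ 3 * (γ' * t + δ') ^ 3) = η * η' := by
      rw [hr₀, div_mul_cancel₀ _ hSt, mul_assoc, mul_div_assoc, div_self, mul_one]
      exact mul_ne_zero (pow_ne_zero _ hden) (pow_ne_zero _ hden')
    rw [← hZ, g4] at g3
    exact g3
  by_cases ha : a = 0
  · -- the function `T - t`
    have hb : b ≠ 0 := by
      rcases hab with h | h
      · exact absurd ha h
      · exact h
    subst ha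
    rw [zero_mul, zero_add] at hr02
    rw [map_zero, zero_mul, zero_add] at E1
    obtain ⟨u, hu⟩ : ∃ u : H, u = algebraMap k H r₀ * Z / (y * (D ^ 3 * D' ^ 3)) := ⟨_, rfl⟩
    have hu2 : u ^ 2 = aeval x' f' := by
      have g1 : (algebraMap k H r₀) ^ 2 = algebraMap k H b * algebraMap k H c := by
        rw [← map_pow, hr02, map_mul, mul_comm]
      have g2 : (y * (D ^ 3 * D' ^ 3)) ^ 2 ≠ 0 :=
        pow_ne_zero _ (mul_ne_zero hy0 (mul_ne_zero (pow_ne_zero _ hd) (pow_ne_zero _ hd')))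
      rw [hu, div_pow, div_eq_iff g2, mul_pow, g1, mul_pow, hy]
      linear_combination (Z * algebraMap k H c) * E1 + (aeval x f * D ^ 6) * E2
    refine data_aux hH hΔ hΔ' hTt hxx hxx' hy hu2 h h' hξ hξ' hη (φ := T - algebraMap k H t) ?_
      (fun v hv => Or.inr hv) ?_ ?_ hinf
    · intro halg
      apply hTt
      have h2 : T = (T - algebraMap k H t) + algebraMap k H t := by ring
      rw [h2]
      exact halg.add (isAlgebraic_algebraMap _)
    · intro v hv
      have h3 := hyy v (Or.inr hv) (algebraMap k H r₀) (Place.val_const r₀)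
      have h4 : y * u = algebraMap k H r₀ * Z / (D ^ 3 * D' ^ 3) := by
        rw [hu]
        field_simp
      rw [h4]
      exact h3
    · intro v hv hreg
      exact not_reg_of_ord_lt v hv (hreg.sub (v.reg_const t))
  · obtain ⟨r, hr⟩ : ∃ r : H, r = y * y' * (D ^ 3 * D' ^ 3) / Z := ⟨_, rfl⟩
    have hr2 : r ^ 2 = algebraMap k H c * (algebraMap k H a * T + algebraMap k H b) := by
      rw [hr, div_pow, div_eq_iff (pow_ne_zero _ hZ0), mul_pow, mul_pow, hy, hy']
      linear_combination (-(aeval x' f' * D' ^ 6)) * E1 -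
        (Z * (algebraMap k H a * T + algebraMap k H b)) * E2
    have hca : algebraMap k H (c * a) ≠ 0 := by
      rw [Ne, map_eq_zero_iff _ (algebraMap k H).injective]
      exact mul_ne_zero hc ha
    have hTr : T = (r ^ 2 - algebraMap k H (c * b)) / algebraMap k H (c * a) := by
      rw [eq_div_iff hca, hr2, map_mul, map_mul]
      ring
    have hrt : Transcendental k r := by
      intro halg
      apply hTt
      rw [hTr, div_eq_mul_inv]
      exact ((halg.pow 2).sub (isAlgebraic_algebraMap _)).mul (isAlgebraic_algebraMap _).inv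
    have hTv : ∀ v : Place k H, 0 < v.ord (r - algebraMap k H r₀) →
        v.Zer (T - algebraMap k H t) := by
      intro v hv
      have hrv : v.Zer (r - algebraMap k H r₀) := Or.inr hv
      have g1 := Place.val_sub (Place.val_pow hrv 2) (Place.val_const (v := v) (c * b))
      have g2 := Place.val_div g1 (Place.val_const (v := v) (c * a)) (mul_ne_zero hc ha)
      rw [← hTr, hr02] at g2
      have g3 : (c * (a * t + b) - c * b) / (c * a) = t := by
        rw [div_eq_iff (mul_ne_zero hc ha)]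
        ring
      rwa [g3] at g2
    refine data_aux hH hΔ hΔ' hTt hxx hxx' hy hy' h h' hξ hξ' hη
      (φ := r - algebraMap k H r₀) ?_ hTv ?_ ?_ hinf
    · intro halg
      apply hrt
      have h2 : r = (r - algebraMap k H r₀) + algebraMap k H r₀ := by ring
      rw [h2]
      exact halg.add (isAlgebraic_algebraMap _)
    · intro v hv
      have h3 := hyy v (hTv v hv) r (Or.inr hv)
      have h4 : y * y' = r * Z / (D ^ 3 * D' ^ 3) := by
        rw [hr]
        field_simp
      rw [h4]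
      exact h3
    · intro v hv hreg
      apply not_reg_of_ord_lt v hv
      have h2 : v.Reg (r ^ 2) := by
        rw [hr2]
        exact (v.reg_const c).mul (((v.reg_const a).mul hreg).add (v.reg_const b))
      have h3 : v.Reg r := by
        rcases h2 with h2 | h2
        · left; exact pow_eq_zero_iff (two_ne_zero) |>.1 h2
        · right
          rw [Place.ord_pow] at h2
          push_cast at h2
          omega
      exact h3.sub (v.reg_const r₀)

end Pool.Agent.LibDih3
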