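import Pool.Agent.LibDih3.Pair5
import Pool.Agent.LibDih3.MobLem

/-!
The pair lemma for two sextuples of branch points with five common points, final form.
-/

open scoped Classical
open Polynomial

namespace Pool.Agent.LibDih3

open Pool.Agent.LibBH2 Pool.Agent.LibQC8 Pool.Agent.LibLP34 Pool.Agent.LibK4
open Pool.Agent.LibJac77 (Genus2 Pt KC DCf vp dv neg jP Pic mk)

variable {k : Type} [Field k] [CharZero k] [IsAlgClosed k] {f f' : k[X]} [Genus2 f] [Genus2 f']

/-- the case that infinity is a branch point of the second curve and five finite points are common -/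
theorem pair5_inf {g g' : GL (Fin 2) k} (hinf : OnePoint.infty ∈ BrAt f' g') (s : Finset k)
    (hs : s.card = 5) (h1 : ∀ t ∈ s, (t : OnePoint k) ∈ BrAt f g)
    (h2 : ∀ t ∈ s, (t : OnePoint k) ∈ BrAt f' g') (z : OnePoint k) {P : Pt f} {Q : Pt f'}
    (hP : xo P = g • z) (hQ : xo Q = g' • z) : neg P = P ∨ neg Q = Q ∨ Data P Q := by
  by_cases hPW : neg P = P
  · exact Or.inl hPW
  by_cases hQW : neg Q = Q
  · exact Or.inr (Or.inl hQW)
  right
  right
  induction z using OnePoint.rec with
  | infty => exact absurd (neg_eq_of_mem hQ hinf) hQW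
  | coe t =>
    match P, Q with
    | .inf, _ => exact absurd rfl hPW
    | .aff ξ η h, .inf => exact absurd rfl hQW
    | .aff ξ η h, .aff ξ' η' h' =>
      have e1 := (smul_coe_iff g t ξ).1 hP.symm
      have e2 := (smul_coe_iff g' t ξ').1 hQ.symm
      refine data5 (det_ne g) (det_ne g') ((infty_mem_BrAt f' g').1 hinf) s hs
        (fun t ht => (coe_mem_BrAt f g t).1 (h1 t ht))
        (fun t ht => (coe_mem_BrAt f' g' t).1 (h2 t ht)) h h' e1 e2 ?_ ?_
      · rintro rfl
        apply hPW
        simp [neg]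
      · rintro rfl
        apply hQW
        simp [neg]

/-- the pair lemma -/
theorem pair5 {g g' : GL (Fin 2) k} (h : 5 ≤ (BrAt f g ∩ BrAt f' g').ncard) (z : OnePoint k)
    {P : Pt f} {Q : Pt f'} (hP : xo P = g • z) (hQ : xo Q = g' • z) :
    neg P = P ∨ neg Q = Q ∨ Data P Q := by
  have hfin' : (BrAt f' g').Finite := Set.finite_of_ncard_ne_zero (by rw [ncard_BrAt]; norm_num)
  have hfin : (BrAt f g ∩ BrAt f' g').Finite := hfin'.subset Set.inter_subset_right
  -- a branch point outside five common ones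
  obtain ⟨b, hb, hb5⟩ : ∃ b ∈ BrAt f' g', 5 ≤ ((BrAt f g ∩ BrAt f' g') \ {b}).ncard := by
    by_cases h6 : (BrAt f g ∩ BrAt f' g').ncard = 5
    · have hne : ∃ b ∈ BrAt f' g', b ∉ BrAt f g ∩ BrAt f' g' := by
        by_contra hcon
        push Not at hcon
        have h7 := Set.ncard_le_ncard (fun b hb => hcon b hb) hfin
        rw [ncard_BrAt, h6] at h7
        omega
      obtain ⟨b, hb, hb'⟩ := hne
      refine ⟨b, hb, ?_⟩
      rw [Set.sdiff_singleton_eq_self hb']
      exact h
    · obtain ⟨b, hb⟩ : (BrAt f g ∩ BrAt f' g').Nonempty := by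
        rw [← Set.ncard_pos hfin]; omega
      refine ⟨b, hb.2, ?_⟩
      rw [Set.ncard_sdiff_singleton_of_mem hb]
      omega
  obtain ⟨m, hm⟩ := exists_infty b
  -- the five points in the new coordinate
  have hfin2 : ((BrAt f g ∩ BrAt f' g') \ {b}).Finite := hfin.subset Set.sdiff_subset
  obtain ⟨A, hA, hA5⟩ : ∃ A : Set (OnePoint k), A ⊆ (BrAt f g ∩ BrAt f' g') \ {b} ∧
      A.ncard = 5 := Set.exists_subset_card_eq hb5
  have hAfin : A.Finite := hfin2.subset hA
  obtain ⟨s, hs⟩ : ∃ s : Set k, s = {t : k | m • (t : OnePoint k) ∈ A} := ⟨_, rfl⟩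
  have himg : (fun t : k => m • (t : OnePoint k)) '' s = A := by
    ext w
    constructor
    · rintro ⟨t, ht, rfl⟩
      rw [hs] at ht
      exact ht
    · intro hw
      have h1 : m⁻¹ • w ≠ OnePoint.infty := by
        intro h1
        have h2 : w = b := by rw [← hm, ← h1, smul_inv_smul]
        exact (hA hw).2 h2
      obtain ⟨t, ht⟩ := OnePoint.ne_infty_iff_exists.1 h1
      refine ⟨t, ?_, ?_⟩
      · rw [hs]
        show m • (t : OnePoint k) ∈ A
        rw [ht, smul_inv_smul]
        exact hw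
      · show m • (t : OnePoint k) = w
        rw [ht, smul_inv_smul]
  have hinj : Function.Injective (fun t : k => m • (t : OnePoint k)) :=
    (MulAction.injective m).comp OnePoint.coe_injective
  have hscard : s.ncard = 5 := by
    rw [← Set.ncard_image_of_injective s hinj, himg, hA5]
  have hsfin : s.Finite := Set.finite_of_ncard_ne_zero (by rw [hscard]; norm_num)
  refine pair5_inf (g := g * m) (g' := g' * m) ?_ hsfin.toFinset ?_ ?_ ?_ (m⁻¹ • z) ?_ ?_
  · rw [mem_BrAt_mul, hm]
    exact hb
  · rw [← Set.ncard_eq_toFinset_card s hsfin, hscard]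
  · intro t ht
    rw [Set.Finite.mem_toFinset, hs] at ht
    rw [mem_BrAt_mul]
    exact (hA ht).1.1
  · intro t ht
    rw [Set.Finite.mem_toFinset, hs] at ht
    rw [mem_BrAt_mul]
    exact (hA ht).1.2
  · rw [hP, mul_smul, smul_inv_smul]
  · rw [hQ, mul_smul, smul_inv_smul]

end Pool.Agent.LibDih3
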