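import Pool.Agent.LibDih3.Isot
import Pool.Agent.LibDih3.FamPush

/-!
Saturations of groups generated by pairwise orthogonal points.
-/

open scoped Classical

namespace Pool.Agent.LibDih3

open Pool.Agent.LibBH2 Pool.Agent.LibQC8 Pool.Agent.LibLP34

section

variable {k : Type} [Field k] {I : Type} {F : I → Type} [∀ i, Field (F i)] [∀ i, Algebra k (F i)]

/-- products of affine power series with pairwise products zero -/
theorem affU_prod {k F₁ : Type} [Field k] [Field F₁] [Algebra k F₁] {J : Type} (s : Finset J)
    (x : J → Ch k F₁) (hx : ∀ a b, x a * x b = 0) :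
    ∏ a ∈ s, affU (x a) = affU (∑ a ∈ s, x a) := by
  induction s using Finset.induction_on with
  | empty => rw [Finset.prod_empty, Finset.sum_empty, affU_zero]
  | insert a s ha ih =>
    rw [Finset.prod_insert ha, Finset.sum_insert ha, ih, affU_mul]
    rw [Finset.mul_sum]
    exact Finset.sum_eq_zero fun b _ => hx a b

/-- the saturation of a group generated by classes with affine power series -/
theorem sat_affine {k F₁ : Type} [Field k] [Field F₁] [Algebra k F₁] (hF : IsFunctionField k F₁)
    (w : Place k F₁) {J : Type} [Fintype J] (p : J → Pic0 k F₁) (x : J → Ch k F₁)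
    (hp : ∀ a, (EP hF w (p a)).toMul = affU (x a)) (hx : ∀ a b, x a * x b = 0)
    {u : Pic0 k F₁} (hu : u ∈ sat (Set.range p)) :
    ∃ q : J → ℚ, ((EP hF w u).toMul : PowerSeries (Ch k F₁)) = aff (∑ a, q a • x a) := by
  obtain ⟨q, hq, hu⟩ := hu
  have hu' : q • u ∈ Submodule.span ℤ (Set.range p) := by
    have h0 : q • u ∈ (Submodule.span ℤ (Set.range p)).toAddSubgroup := by
      rw [Submodule.span_int_eq_addSubgroupClosure]
      exact hu
    exact h0
  rw [Submodule.mem_span_range_iff_exists_fun] at hu'
  obtain ⟨c, hc⟩ := hu'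
  have hq' : (q : ℚ) ≠ 0 := by exact_mod_cast hq
  refine ⟨fun a => (c a : ℚ) / q, ?_⟩
  have hprod : ∀ (r : J → ℚ) (a b : J), (r a • x a) * (r b • x b) = 0 := by
    intro r a b
    rw [smul_mul_smul_comm, hx, smul_zero]
  have h1 : (EP hF w u).toMul = affU (∑ a, ((c a : ℚ) / q) • x a) := by
    refine eq_of_pow_eq (constantCoeff_EP hF w u) ?_ hq ?_
    · rw [affU_val, constantCoeff_aff]
    · have h2 : (EP hF w u).toMul ^ q = ∏ a, affU (x a) ^ c a := by
        rw [← toMul_zsmul, ← map_zsmul, ← hc, map_sum, toMul_sum]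
        refine Finset.prod_congr rfl fun a _ => ?_
        rw [map_zsmul, toMul_zsmul, hp]
      rw [h2, affU_zpow]
      · rw [Finset.prod_congr rfl fun a _ => affU_zpow (hx a a) (c a),
          affU_prod Finset.univ (fun a => (c a : ℚ) • x a) (hprod _), Finset.smul_sum]
        congr 1
        refine Finset.sum_congr rfl fun a _ => ?_
        rw [smul_smul, mul_div_cancel₀ _ hq']
      · rw [Finset.sum_mul_sum]
        exact Finset.sum_eq_zero fun a _ => Finset.sum_eq_zero fun b _ =>
          hprod (fun a => (c a : ℚ) / q) a b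
  rw [h1]
  rfl

end

end Pool.Agent.LibDih3
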